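import Mathlib
import Pool.Agent.H86.CMLib.W529.Ta.Forms

/-!
# One element whose eigenvalues have no multiplicative relations
-/

set_option linter.unusedSectionVars false
set_option linter.deprecated false

namespace Pool.Agent.W529.Ta

open Module Pool.Agent.H204R3.CM Pool.Agent.H204R3.SP Pool.Agent.H204R3.GP

noncomputable section

variable {Ω : Type*} [Field Ω] [CharZero Ω] {V : Type*} [AddCommGroup V] [Module Ω V]
  {R : Type*} [Fintype R] [DecidableEq R]

/-- The number of variables with a given index. -/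
def num {κ : Type*} [Fintype κ] (I : κ → R) (x : R) : ℕ :=
  (Finset.univ.filter (fun l => I l = x)).card

theorem prod_num {κ : Type*} [Fintype κ] (I : κ → R) (f : R → Ω) :
    ∏ l, f (I l) = ∏ x, f x ^ num I x := by
  classical
  rw [← Finset.prod_fiberwise_of_maps_to (g := I) (t := Finset.univ) (fun _ _ => Finset.mem_univ _)]
  refine Finset.prod_congr rfl fun x _ => ?_
  rw [Finset.prod_congr rfl (g := fun _ => f x) (fun l hl => by
    rw [(Finset.mem_filter.1 hl).2]), Finset.prod_const]
  rfl

theorem sum_dd {κ : Type*} [Fintype κ] (inv : R → R) (y : R) (I : κ → R) :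
    ∑ l, (dd inv y (I l) : Ω) = (num I y : Ω) - (num I (inv y) : Ω) := by
  unfold dd num
  rw [Finset.sum_sub_distrib, Finset.sum_boole, Finset.sum_boole]

/-- The eigenvalues of `γ` have no multiplicative relations besides the obvious ones. -/
def NoRel (lam : R → Ω) (q : Ω) (inv : R → R) : Prop :=
  ∀ (c : R → ℤ) (d : ℤ), ∏ x, lam x ^ c x = q ^ d → ∀ x, c x = c (inv x)

theorem num_sub_of_eq {lam : R → Ω} {q : Ω} {inv : R → R} (hrel : NoRel lam q inv)
    (hl0 : ∀ x, lam x ≠ 0) {κ κ' : Type*} [Fintype κ] [Fintype κ'] {M : ℕ} (hM : 0 < M)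
    (I : κ → R) (J : κ' → R) (d : ℤ)
    (h : ∏ l, lam (I l) ^ M = q ^ d * ∏ l, lam (J l) ^ M) (y : R) :
    (num I y : ℤ) - num J y = (num I (inv y) : ℤ) - num J (inv y) := by
  have h1 : ∏ x, lam x ^ ((M : ℤ) * ((num I x : ℤ) - num J x)) = q ^ d := by
    rw [prod_num I (fun x => lam x ^ M), prod_num J (fun x => lam x ^ M)] at h
    have h2 : ∀ x, lam x ^ ((M : ℤ) * ((num I x : ℤ) - num J x)) =
        ((lam x ^ M) ^ num I x) / ((lam x ^ M) ^ num J x) := by
      intro x
      rw [mul_sub, zpow_sub₀ (hl0 x), zpow_mul, zpow_mul, zpow_natCast, zpow_natCast,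
        zpow_natCast]
    rw [Finset.prod_congr rfl (fun x _ => h2 x), Finset.prod_div_distrib, h, mul_div_assoc,
      div_self, mul_one]
    exact Finset.prod_ne_zero_iff.2 fun x _ => pow_ne_zero _ (pow_ne_zero _ (hl0 x))
  have h2 := hrel _ d h1 y
  have h3 : (M : ℤ) ≠ 0 := by exact_mod_cast hM.ne'
  exact mul_left_cancel₀ h3 h2

variable (e : Basis R Ω V) {lam : R → Ω} {q : Ω} {inv : R → R}
  {Γ : Type*} [Group Γ] (ρ : Representation Ω Γ V) (χ : Γ →* Ω) (γ : Γ)
  (he : ∀ x, ρ γ (e x) = lam x • e x)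

include he in
theorem pow_basis (n : ℕ) (x : R) : ρ (γ ^ n) (e x) = lam x ^ n • e x := by
  induction n with
  | zero => rw [pow_zero, pow_zero, one_smul, map_one]; rfl
  | succ n ih =>
    rw [pow_succ, map_mul, pow_succ, Module.End.mul_apply, he, map_smul, ih, smul_smul, mul_comm]

include he in
/-- A subspace of forms stable under a power of `γ` is stable under the diagonal torus. -/
theorem torus_stable (hrel : NoRel lam q inv) (hl0 : ∀ x, lam x ≠ 0)
    {κ : Type*} [Fintype κ] [DecidableEq κ] {M : ℕ} (hM : 0 < M)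
    (U : Submodule Ω (MultilinearMap Ω (fun _ : κ => V) Ω))
    (hU : ∀ φ ∈ U, TT (ρ (γ ^ M)) φ ∈ U) (y : R) :
    ∀ φ ∈ U, dF (DD e inv y) φ ∈ U := by
  classical
  let Λ : (κ → R) → Ω := fun I => ∏ l, lam (I l) ^ M
  let wt : (κ → R) → Ω := fun I => ∑ l, (dd inv y (I l) : Ω)
  have hwt : ∀ I J, Λ I = Λ J → wt I = wt J := by
    intro I J h
    have h1 := num_sub_of_eq hrel hl0 hM I J 0 (by rw [zpow_zero, one_mul]; exact h) y
    simp only [wt]
    rw [sum_dd, sum_dd]
    have h2 : ((num I y : ℤ) : Ω) - ((num J y : ℤ) : Ω) =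
        ((num I (inv y) : ℤ) : Ω) - ((num J (inv y) : ℤ) : Ω) := by
      rw [← Int.cast_sub, ← Int.cast_sub, h1]
    push_cast at h2
    linear_combination h2
  -- interpolation
  let s : Finset Ω := Finset.univ.image Λ
  let g : Ω → Ω := fun z => if h : ∃ I, Λ I = z then wt h.choose else 0
  have hg : ∀ I, g (Λ I) = wt I := by
    intro I
    have h : ∃ J, Λ J = Λ I := ⟨I, rfl⟩
    simp only [g]
    rw [dif_pos h]
    exact hwt _ _ h.choose_spec
  let P : Polynomial Ω := Lagrange.interpolate s id g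
  have hP : ∀ I, P.eval (Λ I) = wt I := by
    intro I
    rw [← hg]
    exact Lagrange.eval_interpolate_at_node g (Function.injective_id.injOn)
      (Finset.mem_image_of_mem Λ (Finset.mem_univ I))
  let T : Module.End Ω (MultilinearMap Ω (fun _ : κ => V) Ω) := TT (ρ (γ ^ M))
  have hT : ∀ (φ : MultilinearMap Ω (fun _ : κ => V) Ω) (I : κ → R),
      T φ (fun l => e (I l)) = Λ I * φ (fun l => e (I l)) := by
    intro φ I
    change φ (fun l => ρ (γ ^ M) (e (I l))) = _
    simp only [pow_basis e ρ γ he]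
    rw [MultilinearMap.map_smul_univ, smul_eq_mul]
  have hae : ∀ (p : Polynomial Ω) (φ : MultilinearMap Ω (fun _ : κ => V) Ω) (I : κ → R),
      Polynomial.aeval T p φ (fun l => e (I l)) = p.eval (Λ I) * φ (fun l => e (I l)) := by
    intro p
    induction p using Polynomial.induction_on' with
    | add p p' hp hp' =>
      intro φ I
      rw [map_add, LinearMap.add_apply, MultilinearMap.add_apply, hp, hp', Polynomial.eval_add,
        add_mul]
    | monomial n a =>
      intro φ I
      rw [Polynomial.aeval_monomial, Polynomial.eval_monomial, Module.End.mul_apply]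
      have h1 : ∀ n : ℕ, ∀ φ : MultilinearMap Ω (fun _ : κ => V) Ω,
          (T ^ n) φ (fun l => e (I l)) = Λ I ^ n * φ (fun l => e (I l)) := by
        intro n
        induction n with
        | zero =>
          intro φ
          rw [pow_zero, pow_zero, one_mul]
          rfl
        | succ n ih =>
          intro φ
          rw [pow_succ, Module.End.mul_apply, ih, hT, pow_succ]
          ring
      change a * (T ^ n) φ (fun l => e (I l)) = _
      rw [h1]
      ring
  have hmem : ∀ (p : Polynomial Ω), ∀ φ ∈ U, Polynomial.aeval T p φ ∈ U := by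
    intro p
    induction p using Polynomial.induction_on' with
    | add p p' hp hp' =>
      intro φ hφ
      rw [map_add, LinearMap.add_apply]
      exact U.add_mem (hp φ hφ) (hp' φ hφ)
    | monomial n a =>
      intro φ hφ
      rw [Polynomial.aeval_monomial, Module.End.mul_apply]
      refine U.smul_mem a ?_
      induction n with
      | zero => exact hφ
      | succ n ih =>
        rw [pow_succ', Module.End.mul_apply]
        exact hU _ ih
  intro φ hφ
  have h1 : dF (DD e inv y) φ = Polynomial.aeval T P φ := by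
    refine Basis.ext_multilinear (fun _ => e) fun I => ?_
    rw [hae, hP, dF_apply]
    have h1 : ∀ k, φ (Function.update (fun l => e (I l)) k (DD e inv y (e (I k)))) =
        dd inv y (I k) * φ (fun l => e (I l)) := by
      intro k
      rw [DD_basis, MultilinearMap.map_update_smul, smul_eq_mul]
      congr 2
      exact Function.update_eq_self k (fun l => e (I l))
    rw [Finset.sum_congr rfl (fun k _ => h1 k), ← Finset.sum_mul]
  rw [h1]
  exact hmem P φ hφ

include he in
/-- Tate forms are balanced. -/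
theorem balanced (hrel : NoRel lam q inv) (hl0 : ∀ x, lam x ≠ 0) (hχ : χ γ = q)
    (hinv : ∀ x, lam x * lam (inv x) = q)
    {m : ℕ} (φ : MultilinearMap Ω (fun _ : Fin m × Fin 2 => V) Ω) (hφ : IsTate ρ χ m φ)
    (I : Fin m × Fin 2 → R) (hI : φ (fun l => e (I l)) ≠ 0) (y : R) :
    (Finset.univ.filter (fun l => I l = y)).card =
      (Finset.univ.filter (fun l => I l = inv y)).card := by
  obtain ⟨Δ, hΔ, hφ⟩ := hφ
  obtain ⟨M, hM, -, hMΔ⟩ := Subgroup.exists_pow_mem_of_index_ne_zero hΔ.index_ne_zero γ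
  have h1 := hφ (γ ^ M) hMΔ (fun l => e (I l))
  simp only [pow_basis e ρ γ he] at h1
  rw [MultilinearMap.map_smul_univ, smul_eq_mul, map_pow, hχ] at h1
  have h3 := mul_right_cancel₀ hI h1
  have h4 := num_sub_of_eq hrel hl0 hM I (Fin.elim0 : Fin 0 → R) (M * m) (by
    rw [h3, Fin.prod_univ_zero, mul_one, ← pow_mul, ← zpow_natCast]
    push_cast
    rfl) y
  have h5 : ∀ y, num (Fin.elim0 : Fin 0 → R) y = 0 := by
    intro y
    simp [num]
  rw [h5, h5] at h4
  have h6 : num I y = num I (inv y) := by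
    have h7 : (num I y : ℤ) = num I (inv y) := by linarith
    exact_mod_cast h7
  exact h6

include he in
theorem DD_mem_lieP (hrel : NoRel lam q inv) (hl0 : ∀ x, lam x ≠ 0) (hχ : χ γ = q)
    (hinv : ∀ x, lam x * lam (inv x) = q) (y : R) : DD e inv y ∈ lieP ρ χ := by
  refine ⟨DD_mem' e ρ χ inv (fun m φ hφ I hI y => balanced e ρ χ γ he hrel hl0 hχ hinv φ hφ I hI y)
    y, fun m Δ hΔ U hU φ hφ => ?_⟩
  obtain ⟨M, hM, -, hMΔ⟩ := Subgroup.exists_pow_mem_of_index_ne_zero hΔ.index_ne_zero γ
  exact torus_stable e ρ γ he hrel hl0 hM U (fun φ hφ => hU _ hMΔ φ hφ) y φ hφ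

end

end Pool.Agent.W529.Ta
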