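import Mathlib
import Pool.Agent.H86.CMLib.W529.Ta.Torus

/-!
# Forms killed by a Lie algebra which contains the diagonal torus
-/

set_option linter.unusedSectionVars false
set_option linter.deprecated false

namespace Pool.Agent.W529.Ta

open Module Pool.Agent.H204R3.CM Pool.Agent.H204R3.SP Pool.Agent.H204R3.GP

noncomputable section

variable {Ω : Type*} [Field Ω] [CharZero Ω] {V : Type*} [AddCommGroup V] [Module Ω V]
  {R : Type*} [Fintype R] [DecidableEq R] (e : Basis R Ω V) {inv : R → R} {jj : R → Ω}
  (𝔤 : Submodule Ω (Module.End Ω V))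
  (hbr : ∀ X ∈ 𝔤, ∀ Y ∈ 𝔤, X * Y - Y * X ∈ 𝔤)
  (hD : ∀ y, DD e inv y ∈ 𝔤)
  (hinv : ∀ x, inv (inv x) = x) (hne : ∀ x, inv x ≠ x)
  (hjj : ∀ x, jj (inv x) = -jj x) (hj0 : ∀ x, jj x ≠ 0)
  (ω : V →ₗ[Ω] V →ₗ[Ω] Ω) (hω : ∀ x y, ω (e x) (e y) = JJ inv jj x y)
  (hsp : ∀ X ∈ 𝔤, ∀ u w, ω (X u) w + ω u (X w) = 0)
  {Γ : Type*} [Group Γ] (ρ : Representation Ω Γ V) (χ : Γ →* Ω)
  (hconj : ∀ (s : Γ) (X : Module.End Ω V), X ∈ 𝔤 → ρ s * X * ρ s⁻¹ ∈ 𝔤)
  (hss : HasProj ρ)
  (hcomm : ∀ Δ : Subgroup Γ, Δ.FiniteIndex → ∀ P : Module.End Ω V,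
    (∀ s ∈ Δ, ∀ v, P (ρ s v) = ρ s (P v)) → ∀ X ∈ 𝔤, ∀ v, X (P v) = P (X v))
  (hωρ : ∀ s u v, ω (ρ s u) (ρ s v) = χ s * ω u v)

include hbr hD hinv hne hjj hj0 hω hsp hconj hss hcomm hωρ in
/-- The forms killed by the generators are combinations of products of Tate forms of degree
two. -/
theorem killed_mem {m : ℕ} (φ : MultilinearMap Ω (fun _ : Fin m × Fin 2 => V) Ω)
    (hφ : ∀ a b, SS ω (e a) (e b) ∈ 𝔤 → Kills (SS ω (e a) (e b)) φ) :
    φ ∈ Submodule.span Ω (PT ρ χ m) := by
  classical
  -- the classes
  let S : Setoid R :=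
    { r := fun x z => z ∈ CC e 𝔤 ω inv x
      iseqv :=
        { refl := fun x => Or.inl rfl
          symm := fun h => CC_symm e 𝔤 hbr hD hinv hne hjj hj0 ω hω hsp ρ hconj hss hcomm h
          trans := fun h h' => CC_trans e 𝔤 hbr hD hinv hne hjj hj0 ω hω hsp h h' } }
  let cls : R → Quotient S := Quotient.mk S
  have hcls' : ∀ x z, cls x = cls z ↔ z ∈ CC e 𝔤 ω inv x := fun x z => Quotient.eq
  have hcls : ∀ x y, cls x = cls y → cls (inv x) = cls (inv y) := by
    intro x y h
    symm
    rw [hcls'] at h ⊢
    exact CC_inv e 𝔤 ω hinv h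
  have _ : Fintype (Quotient S) := Fintype.ofFinite _
  -- the forms of the classes are Tate forms
  have hPC : ∀ (c : Quotient S) (y : R), ∀ v ∈ Submodule.span Ω (e '' CC e 𝔤 ω inv y),
      PC e cls c v = if cls y = c then v else 0 := by
    intro c y v hv
    induction hv using Submodule.span_induction with
    | mem v hv =>
      obtain ⟨z, hz, rfl⟩ := hv
      rw [PC_basis, ← (hcls' y z).2 hz]
    | zero => rw [map_zero]; split_ifs <;> rfl
    | add a b _ _ ha hb =>
      rw [map_add, ha, hb]
      split_ifs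
      · rfl
      · rw [add_zero]
    | smul c' a _ ha =>
      rw [map_smul, ha]
      split_ifs
      · rfl
      · rw [smul_zero]
  choose Δx hΔx hΔx' using fun x : R => exists_stabilizer e 𝔤 hD hne ρ hconj
    (Submodule.span Ω (e '' CC e 𝔤 ω inv x))
    (UU_stable e 𝔤 hbr hD hinv hne hjj hj0 ω hω hsp x)
  let BC : Quotient S → (V →ₗ[Ω] V →ₗ[Ω] Ω) := fun c => ω.comp (PC e cls c)
  have hBC : ∀ c, IsTate2 ρ χ (BC c) := by
    intro c
    refine ⟨⨅ x, Δx x, Subgroup.finiteIndex_iInf hΔx, fun s hs u v => ?_⟩
    have h1 : ∀ v, PC e cls c (ρ s v) = ρ s (PC e cls c v) := by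
      have h2 : (PC e cls c).comp (ρ s) = (ρ s).comp (PC e cls c) := by
        refine e.ext fun y => ?_
        rw [LinearMap.comp_apply, LinearMap.comp_apply, hPC c y (ρ s (e y)) (hΔx' y s
          ((Subgroup.mem_iInf.1 hs) y) _ (Submodule.subset_span ⟨y, Or.inl rfl, rfl⟩)), PC_basis]
        split_ifs
        · rfl
        · rw [map_zero]
      exact fun v => congrArg (fun T : Module.End Ω V => T v) h2
    change ω (PC e cls c (ρ s u)) (ρ s v) = χ s * ω (PC e cls c u) v
    rw [h1, hωρ]
  have hBC' : ∀ c x y, BC c (e x) (e y) = if cls x = c then JJ inv jj x y else 0 := by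
    intro c x y
    change ω (PC e cls c (e x)) (e y) = _
    rw [PC_basis]
    split_ifs
    · rw [hω]
    · rw [map_zero, LinearMap.zero_apply]
  -- coefficients
  let coef : MultilinearMap Ω (fun _ : Fin m × Fin 2 => V) Ω →ₗ[Ω] ((Fin m × Fin 2 → R) → Ω) :=
    { toFun := fun φ I => φ (fun k => e (I k))
      map_add' := fun _ _ => rfl
      map_smul' := fun _ _ => rfl }
  have hinj : Function.Injective coef := fun φ φ' h =>
    Basis.ext_multilinear (fun _ => e) fun I => congrFun h I
  have hrel : ∀ b c, cls (inv b) = cls c → ∀ I : Fin m × Fin 2 → R,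
      ∑ k, (JJ inv jj b (I k) * coef φ (Function.update I k c) +
        JJ inv jj c (I k) * coef φ (Function.update I k b)) = 0 := by
    intro b c hbc I
    have h2 : SS ω (e b) (e c) ∈ 𝔤 :=
      SS_mem' e 𝔤 hbr hD hinv hne hjj hj0 ω hω hsp ((hcls' _ _).1 hbc)
    have h3 := hφ b c h2 (fun k => e (I k))
    rw [← h3]
    refine Finset.sum_congr rfl fun k _ => ?_
    rw [SS_apply, hω, hω, MultilinearMap.map_update_add, MultilinearMap.map_update_smul,
      MultilinearMap.map_update_smul, smul_eq_mul, smul_eq_mul]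
    have h4 : ∀ z : R, coef φ (Function.update I k z) =
        φ (Function.update (fun k => e (I k)) k (e z)) := by
      intro z
      change φ (fun l => e (Function.update I k z l)) = _
      congr 1
      funext l
      by_cases hl : l = k
      · subst hl
        rw [Function.update_self, Function.update_self]
      · rw [Function.update_of_ne hl, Function.update_of_ne hl]
    rw [h4, h4]
  let F : (Fin m × Fin 2 → Quotient S) → ((Fin m × Fin 2 → R) → Ω) := fun t I =>
    if (fun k => cls (I k)) = t then coef φ I else 0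
  have hF : coef φ = ∑ t, F t := by
    funext I
    rw [Finset.sum_apply]
    simp only [F]
    rw [Finset.sum_ite_eq, if_pos (Finset.mem_univ _)]
  have hFt : ∀ t, F t ∈ InvG cls inv jj (Fin m × Fin 2) t := by
    intro t
    refine ⟨fun b c hbc I => ?_, fun I hI k => ?_⟩
    · have htype : ∀ (k : Fin m × Fin 2) (z : R), cls (I k) = cls z →
          (fun l => cls (Function.update I k z l)) = fun l => cls (I l) := by
        intro k z hz
        funext l
        by_cases hl : l = k
        · subst hl
          rw [Function.update_self, hz]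
        · rw [Function.update_of_ne hl]
      have h1 : ∀ k, JJ inv jj b (I k) * F t (Function.update I k c) +
          JJ inv jj c (I k) * F t (Function.update I k b) =
          if (fun k => cls (I k)) = t then JJ inv jj b (I k) * coef φ (Function.update I k c) +
            JJ inv jj c (I k) * coef φ (Function.update I k b) else 0 := by
        intro k
        have e1 : JJ inv jj b (I k) * F t (Function.update I k c) =
            if (fun k => cls (I k)) = t then JJ inv jj b (I k) *
              coef φ (Function.update I k c) else 0 := by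
          by_cases h : I k = inv b
          · have h2 := htype k c (by rw [h, hbc])
            simp only [F]
            rw [h2]
            split_ifs
            · rfl
            · rw [mul_zero]
          · have h2 : JJ inv jj b (I k) = 0 := by
              unfold JJ
              rw [if_neg h]
            rw [h2, zero_mul, zero_mul]
            split_ifs <;> rfl
        have e2 : JJ inv jj c (I k) * F t (Function.update I k b) =
            if (fun k => cls (I k)) = t then JJ inv jj c (I k) *
              coef φ (Function.update I k b) else 0 := by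
          by_cases h : I k = inv c
          · have h2 := htype k b (by rw [h, ← hcls _ _ hbc, hinv])
            simp only [F]
            rw [h2]
            split_ifs
            · rfl
            · rw [mul_zero]
          · have h2 : JJ inv jj c (I k) = 0 := by
              unfold JJ
              rw [if_neg h]
            rw [h2, zero_mul, zero_mul]
            split_ifs <;> rfl
        rw [e1, e2]
        split_ifs
        · rfl
        · rw [add_zero]
      rw [Finset.sum_congr rfl (fun k _ => h1 k)]
      by_cases hI : (fun k => cls (I k)) = t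
      · simp only [if_pos hI]
        exact hrel b c hbc I
      · simp only [if_neg hI]
        exact Finset.sum_const_zero
    · by_contra h
      apply hI
      simp only [F]
      rw [if_neg]
      rintro rfl
      exact h rfl
  have h1 : coef φ ∈ MatG cls inv jj (Fin m × Fin 2) m := by
    rw [hF]
    exact Submodule.sum_mem _ fun t _ => fftG hinv hjj hj0 hcls m (Fin m × Fin 2)
      (by simp [mul_comm]) t (hFt t)
  have h3 : MatG cls inv jj (Fin m × Fin 2) m ≤ (Submodule.span Ω (PT ρ χ m)).map coef := by
    unfold MatG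
    rw [Submodule.span_le]
    rintro _ ⟨σ, c, rfl⟩
    refine ⟨mmG σ (fun l => BC (c l)), Submodule.subset_span ⟨σ, _, fun l => hBC _, rfl⟩, ?_⟩
    funext I
    change mmG σ (fun l => BC (c l)) (fun k => e (I k)) = _
    rw [mmG_apply]
    exact Finset.prod_congr rfl fun s _ => hBC' _ _ _
  obtain ⟨φ', hφ', hφφ⟩ := h3 h1
  rw [← hinj hφφ]
  exact hφ'

include hbr hD hinv hne hjj hj0 hω hsp hconj hss hcomm in
theorem SS_swap {a b : R} (h : SS ω (e a) (e b) ∈ 𝔤) : SS ω (e (inv b)) (e (inv a)) ∈ 𝔤 := by
  have h1 : b ∈ CC e 𝔤 ω inv (inv a) := Or.inr (by rw [hinv]; exact h)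
  have h2 := CC_symm e 𝔤 hbr hD hinv hne hjj hj0 ω hω hsp ρ hconj hss hcomm h1
  refine SS_mem' e 𝔤 hbr hD hinv hne hjj hj0 ω hω hsp ?_
  rw [hinv]
  exact h2

end

end Pool.Agent.W529.Ta
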