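import Mathlib
import Pool.Agent.H86.CMLib.W529.Ta.Proj

/-!
# Endomorphisms of the spaces of forms that commute with the Lie algebra commute with a subgroup of
finite index; averaging
-/

set_option linter.unusedSectionVars false
set_option linter.deprecated false

namespace Pool.Agent.W529.Ta

open Module Pool.Agent.H204R3.CM Pool.Agent.H204R3.SP Pool.Agent.H204R3.GP

noncomputable section

/-! ## Averaging -/

theorem average {k : Type*} [Field k] [CharZero k] {W : Type*} [AddCommGroup W] [Module k W]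
    {Γ : Type*} [Group Γ] (T : Representation k Γ W) (Δ Δ' : Subgroup Γ) (hΔ' : Δ'.FiniteIndex)
    (U : Submodule k W) (hU : ∀ s ∈ Δ, ∀ u ∈ U, T s u ∈ U) (P : Module.End k W)
    (hP1 : ∀ v, P v ∈ U) (hP2 : ∀ u ∈ U, P u = u) (hP3 : ∀ s ∈ Δ', ∀ v, P (T s v) = T s (P v)) :
    ∃ Q : Module.End k W, (∀ v, Q v ∈ U) ∧ (∀ u ∈ U, Q u = u) ∧
      ∀ s ∈ Δ, ∀ v, Q (T s v) = T s (Q v) := by
  classical
  let H : Subgroup Δ := Δ'.subgroupOf Δ
  have hH : H.FiniteIndex := inferInstance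
  have _ : Fintype (Δ ⧸ H) := Subgroup.fintypeQuotientOfFiniteIndex
  -- conjugates
  let f : Δ → Module.End k W := fun s => T s * P * T (s : Γ)⁻¹
  have hTT : ∀ (s t : Γ) (v : W), T s (T t v) = T (s * t) v := by
    intro s t v
    rw [map_mul]
    rfl
  have hT1 : ∀ v : W, T (1 : Γ) v = v := by
    intro v
    rw [map_one]
    rfl
  have hf : ∀ s t : Δ, s⁻¹ * t ∈ H → f s = f t := by
    intro s t h
    have h1 : ((s : Γ)⁻¹ * (t : Γ)) ∈ Δ' := h
    refine LinearMap.ext fun v => ?_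
    change T s (P (T (s : Γ)⁻¹ v)) = T t (P (T (t : Γ)⁻¹ v))
    have h2 : T (s : Γ)⁻¹ v = T ((s : Γ)⁻¹ * t) (T (t : Γ)⁻¹ v) := by
      rw [hTT, mul_inv_cancel_right]
    rw [h2, hP3 _ h1, hTT, mul_inv_cancel_left]
  let F : Δ ⧸ H → Module.End k W := Quotient.lift f (by
    intro s t h
    exact hf s t (QuotientGroup.leftRel_apply.1 h))
  have hF : ∀ s : Δ, F (QuotientGroup.mk s) = f s := fun s => rfl
  let n : ℕ := Fintype.card (Δ ⧸ H)
  have hn : (n : k) ≠ 0 := by
    have : 0 < n := Fintype.card_pos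
    exact_mod_cast this.ne'
  let Q : Module.End k W := (n : k)⁻¹ • ∑ x : Δ ⧸ H, F x
  have hQ : ∀ v, Q v = (n : k)⁻¹ • ∑ x : Δ ⧸ H, F x v := by
    intro v
    change ((n : k)⁻¹ • ∑ x : Δ ⧸ H, F x) v = _
    rw [LinearMap.smul_apply, LinearMap.sum_apply]
  refine ⟨Q, ?_, ?_, ?_⟩
  · intro v
    rw [hQ]
    refine U.smul_mem _ (U.sum_mem fun x _ => ?_)
    induction x using QuotientGroup.induction_on with
    | H s => exact hU s s.2 _ (hP1 _)
  · intro u hu
    rw [hQ]
    have h1 : ∀ x : Δ ⧸ H, F x u = u := by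
      intro x
      induction x using QuotientGroup.induction_on with
      | H s =>
        change T s (P (T (s : Γ)⁻¹ u)) = u
        rw [hP2 _ (hU _ (Δ.inv_mem s.2) u hu), hTT, mul_inv_cancel, hT1]
    rw [Finset.sum_congr rfl (fun x _ => h1 x), Finset.sum_const, Finset.card_univ,
      ← Nat.cast_smul_eq_nsmul k, smul_smul]
    change ((n : k)⁻¹ * (n : k)) • u = u
    rw [inv_mul_cancel₀ hn, one_smul]
  · intro s hs v
    rw [hQ, hQ, map_smul, map_sum]
    congr 1
    refine Fintype.sum_equiv (MulAction.toPerm (⟨s, hs⟩ : Δ)⁻¹) _ _ fun x => ?_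
    induction x using QuotientGroup.induction_on with
    | H t =>
      change T t (P (T (t : Γ)⁻¹ (T s v))) =
        T s (T ((s : Γ)⁻¹ * t) (P (T ((s : Γ)⁻¹ * t)⁻¹ v)))
      rw [hTT s, mul_inv_cancel_left, hTT, mul_inv_rev, inv_inv]

/-! ## Commuting with the Lie algebra -/

variable {Ω : Type*} [Field Ω] [CharZero Ω] {V : Type*} [AddCommGroup V] [Module Ω V]
  {R : Type*} [Fintype R] [DecidableEq R] (e : Basis R Ω V) {inv : R → R} {jj : R → Ω}
  (𝔤 : Submodule Ω (Module.End Ω V))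
  (hbr : ∀ X ∈ 𝔤, ∀ Y ∈ 𝔤, X * Y - Y * X ∈ 𝔤)
  (hD : ∀ y, DD e inv y ∈ 𝔤)
  (hinv : ∀ x, inv (inv x) = x) (hne : ∀ x, inv x ≠ x)
  (hjj : ∀ x, jj (inv x) = -jj x) (hj0 : ∀ x, jj x ≠ 0)
  (ω : V →ₗ[Ω] V →ₗ[Ω] Ω) (hω : ∀ x y, ω (e x) (e y) = JJ inv jj x y)
  (hsp : ∀ X ∈ 𝔤, ∀ u w, ω (X u) w + ω u (X w) = 0)
  {Γ : Type*} [Group Γ] (ρ : Representation Ω Γ V) (χ : Γ →* Ω)
  (hconj : ∀ (s : Γ) (X : Module.End Ω V), X ∈ 𝔤 → ρ s * X * ρ s⁻¹ ∈ 𝔤)
  (hss : HasProj ρ)
  (hcomm : ∀ Δ : Subgroup Γ, Δ.FiniteIndex → ∀ P : Module.End Ω V,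
    (∀ s ∈ Δ, ∀ v, P (ρ s v) = ρ s (P v)) → ∀ X ∈ 𝔤, ∀ v, X (P v) = P (X v))
  (hωρ : ∀ s u v, ω (ρ s u) (ρ s v) = χ s * ω u v)

/-- The form `v ↦ ∏ ω (w l) (v l)`, as a multilinear function of `w`. -/
def theta (m : ℕ) : MultilinearMap Ω (fun _ : Fin m => V)
    (MultilinearMap Ω (fun _ : Fin m => V) Ω) :=
  ((LinearMap.applyₗ (MultilinearMap.mkPiAlgebra Ω (Fin m) Ω)).compMultilinearMap
    (MultilinearMap.compLinearMapMultilinear)).compLinearMap (fun _ => ω)

theorem theta_apply (m : ℕ) (w v : Fin m → V) : theta ω m w v = ∏ l, ω (w l) (v l) := rfl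

/-- Two copies of the variables. -/
def twoCopies (m : ℕ) : (Fin m ⊕ Fin m) ≃ (Fin m × Fin 2) where
  toFun := Sum.elim (fun l => (l, 1)) (fun l => (l, 0))
  invFun := fun i => if i.2 = 1 then Sum.inl i.1 else Sum.inr i.1
  left_inv := by
    rintro (l | l) <;> simp
  right_inv := by
    rintro ⟨l, ε⟩
    fin_cases ε <;> simp

/-- The form in `2 m` variables attached to an endomorphism of the space of forms in `m`
variables. -/
def formOf (m : ℕ) (P : Module.End Ω (MultilinearMap Ω (fun _ : Fin m => V) Ω)) :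
    MultilinearMap Ω (fun _ : Fin m × Fin 2 => V) Ω :=
  MultilinearMap.domDomCongr (twoCopies m)
    (MultilinearMap.uncurrySum (N := fun _ : Fin m ⊕ Fin m => V)
      (LinearMap.compMultilinearMap P (theta ω m)))

theorem formOf_apply (m : ℕ) (P : Module.End Ω (MultilinearMap Ω (fun _ : Fin m => V) Ω))
    (u : Fin m × Fin 2 → V) :
    formOf ω m P u = P (theta ω m (fun l => u (l, 1))) (fun l => u (l, 0)) := rfl

theorem dF_theta (m : ℕ) {X : Module.End Ω V} (hX : ∀ u w, ω (X u) w + ω u (X w) = 0)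
    (w : Fin m → V) :
    ∑ l, theta ω m (Function.update w l (X (w l))) = -dF X (theta ω m w) := by
  ext v
  rw [MultilinearMap.neg_apply, dF_apply, MultilinearMap.sum_apply, ← Finset.sum_neg_distrib]
  refine Finset.sum_congr rfl fun l _ => ?_
  rw [theta_apply, theta_apply, ← Finset.mul_prod_erase _ _ (Finset.mem_univ l),
    ← Finset.mul_prod_erase _ _ (Finset.mem_univ l), Function.update_self, Function.update_self]
  have h1 : ∏ x ∈ Finset.univ.erase l, ω (Function.update w l (X (w l)) x) (v x) =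
      ∏ x ∈ Finset.univ.erase l, ω (w x) (Function.update v l (X (v l)) x) := by
    refine Finset.prod_congr rfl fun x hx => ?_
    rw [Function.update_of_ne (Finset.ne_of_mem_erase hx),
      Function.update_of_ne (Finset.ne_of_mem_erase hx)]
  rw [h1]
  linear_combination (∏ x ∈ Finset.univ.erase l, ω (w x) (Function.update v l (X (v l)) x)) *
    hX (w l) (v l)

theorem kills_formOf (m : ℕ) (P : Module.End Ω (MultilinearMap Ω (fun _ : Fin m => V) Ω))
    {X : Module.End Ω V} (hX : ∀ u w, ω (X u) w + ω u (X w) = 0)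
    (hP : ∀ φ, P (dF X φ) = dF X (P φ)) : Kills X (formOf ω m P) := by
  intro u
  rw [Fintype.sum_prod_type]
  have h0 : ∀ l, ∑ ε : Fin 2, formOf ω m P (Function.update u (l, ε) (X (u (l, ε)))) =
      P (theta ω m (fun l => u (l, 1))) (Function.update (fun l => u (l, 0)) l (X (u (l, 0)))) +
      P (theta ω m (Function.update (fun l => u (l, 1)) l (X (u (l, 1))))) (fun l => u (l, 0)) := by
    intro l
    rw [Fin.sum_univ_two, formOf_apply, formOf_apply]
    have e1 : ∀ (ε δ : Fin 2) (z : V), (fun l' => Function.update u (l, ε) z (l', δ)) =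
        if δ = ε then Function.update (fun l' => u (l', δ)) l z else fun l' => u (l', δ) := by
      intro ε δ z
      by_cases hδ : δ = ε
      · subst hδ
        rw [if_pos rfl]
        funext l'
        by_cases hl : l' = l
        · subst hl
          rw [Function.update_self, Function.update_self]
        · rw [Function.update_of_ne (fun h => hl (congrArg Prod.fst h)), Function.update_of_ne hl]
      · rw [if_neg hδ]
        funext l'
        rw [Function.update_of_ne (fun h => hδ (congrArg Prod.snd h))]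
    rw [e1, e1, e1, e1]
    simp
  rw [Finset.sum_congr rfl (fun l _ => h0 l), Finset.sum_add_distrib]
  have h1 : ∑ l, P (theta ω m (fun l => u (l, 1)))
      (Function.update (fun l => u (l, 0)) l (X (u (l, 0)))) =
      dF X (P (theta ω m (fun l => u (l, 1)))) (fun l => u (l, 0)) := (dF_apply _ _ _).symm
  have h2 : ∑ l, P (theta ω m (Function.update (fun l => u (l, 1)) l (X (u (l, 1)))))
      (fun l => u (l, 0)) = -(P (dF X (theta ω m (fun l => u (l, 1)))) (fun l => u (l, 0))) := by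
    rw [← MultilinearMap.sum_apply, ← map_sum, dF_theta ω m hX (fun l => u (l, 1)), map_neg,
      MultilinearMap.neg_apply]
  rw [h1, h2, hP]
  ring

include hinv hj0 hω in
/-- The forms `theta w` span. -/
theorem ext_theta (m : ℕ) (A B : Module.End Ω (MultilinearMap Ω (fun _ : Fin m => V) Ω))
    (h : ∀ w, A (theta ω m w) = B (theta ω m w)) : A = B := by
  classical
  have h1 : ∀ I : Fin m → R, mkForm e (fun J => if J = I then (1 : Ω) else 0) =
      theta ω m (fun l => (jj (inv (I l)))⁻¹ • e (inv (I l))) := by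
    intro I
    refine Basis.ext_multilinear (fun _ => e) fun J => ?_
    rw [mkForm_basis, theta_apply]
    have h2 : ∀ l, ω ((jj (inv (I l)))⁻¹ • e (inv (I l))) (e (J l)) =
        if J l = I l then 1 else 0 := by
      intro l
      rw [map_smul, LinearMap.smul_apply, hω, smul_eq_mul]
      unfold JJ
      rw [hinv]
      split_ifs
      · exact inv_mul_cancel₀ (hj0 _)
      · rw [mul_zero]
    rw [Finset.prod_congr rfl (fun l _ => h2 l)]
    by_cases hJ : J = I
    · rw [if_pos hJ, hJ]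
      exact (Finset.prod_eq_one fun l _ => if_pos rfl).symm
    · rw [if_neg hJ]
      obtain ⟨l, hl⟩ := Function.ne_iff.1 hJ
      exact (Finset.prod_eq_zero (Finset.mem_univ l) (if_neg hl)).symm
  refine LinearMap.ext fun φ => ?_
  have h3 : φ = ∑ I, φ (fun l => e (I l)) • mkForm e (fun J => if J = I then (1 : Ω) else 0) := by
    refine Basis.ext_multilinear (fun _ => e) fun J => ?_
    rw [MultilinearMap.sum_apply]
    have h4 : ∀ I : Fin m → R, (φ (fun l => e (I l)) • mkForm e (fun J => if J = I then (1 : Ω)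
        else 0)) (fun l => e (J l)) = if J = I then φ (fun l => e (J l)) else 0 := by
      intro I
      rw [MultilinearMap.smul_apply, mkForm_basis, smul_eq_mul]
      by_cases hI : J = I
      · rw [if_pos hI, if_pos hI, hI, mul_one]
      · rw [if_neg hI, if_neg hI, mul_zero]
    rw [Finset.sum_congr rfl (fun I _ => h4 I), Finset.sum_ite_eq, if_pos (Finset.mem_univ _)]
  rw [h3, map_sum, map_sum]
  refine Finset.sum_congr rfl fun I _ => ?_
  rw [map_smul, map_smul, h1, h]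

theorem isTate_add {m : ℕ} {φ ψ : MultilinearMap Ω (fun _ : Fin m × Fin 2 => V) Ω}
    (h1 : IsTate ρ χ m φ) (h2 : IsTate ρ χ m ψ) : IsTate ρ χ m (φ + ψ) := by
  obtain ⟨Δ, hΔ, hφ⟩ := h1
  obtain ⟨Δ', hΔ', hψ⟩ := h2
  refine ⟨Δ ⊓ Δ', inferInstance, fun s hs v => ?_⟩
  rw [MultilinearMap.add_apply, MultilinearMap.add_apply, hφ s hs.1, hψ s hs.2, mul_add]

theorem isTate_smul {m : ℕ} (c : Ω) {φ : MultilinearMap Ω (fun _ : Fin m × Fin 2 => V) Ω}
    (h1 : IsTate ρ χ m φ) : IsTate ρ χ m (c • φ) := by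
  obtain ⟨Δ, hΔ, hφ⟩ := h1
  refine ⟨Δ, hΔ, fun s hs v => ?_⟩
  rw [MultilinearMap.smul_apply, MultilinearMap.smul_apply, hφ s hs, smul_eq_mul, smul_eq_mul]
  ring

theorem isTate_of_PT {m : ℕ} {φ : MultilinearMap Ω (fun _ : Fin m × Fin 2 => V) Ω}
    (h : φ ∈ Submodule.span Ω (PT ρ χ m)) : IsTate ρ χ m φ := by
  induction h using Submodule.span_induction with
  | mem φ hφ =>
    obtain ⟨σ, B, hB, rfl⟩ := hφ
    choose Δ hΔ hΔ' using hB
    refine ⟨⨅ l, Δ l, Subgroup.finiteIndex_iInf hΔ, fun s hs v => ?_⟩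
    rw [mmG_apply, mmG_apply]
    rw [Finset.prod_congr rfl (fun l _ => hΔ' l s ((Subgroup.mem_iInf.1 hs) l) _ _),
      Finset.prod_mul_distrib, Finset.prod_const, Finset.card_univ, Fintype.card_fin]
  | zero =>
    refine ⟨⊤, inferInstance, fun s _ v => ?_⟩
    rw [MultilinearMap.zero_apply, MultilinearMap.zero_apply, mul_zero]
  | add φ ψ _ _ h1 h2 => exact isTate_add ρ χ h1 h2
  | smul c φ _ h1 => exact isTate_smul ρ χ c h1

include hinv hj0 hω hωρ in
/-- If the form attached to `P` is a Tate form, then `P` commutes with a subgroup of finite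
index. -/
theorem comm_of_isTate (m : ℕ)
    (P : Module.End Ω (MultilinearMap Ω (fun _ : Fin m => V) Ω))
    (h : IsTate ρ χ m (formOf ω m P)) :
    ∃ Δ : Subgroup Γ, Δ.FiniteIndex ∧ ∀ s ∈ Δ, ∀ φ, P (TT (ρ s) φ) = TT (ρ s) (P φ) := by
  obtain ⟨Δ, hΔ, h⟩ := h
  refine ⟨Δ, hΔ, fun s hs => ?_⟩
  have h1 : P * TT (ρ s) = TT (ρ s) * P := by
    refine ext_theta e hinv hj0 ω hω m _ _ fun w => ?_
    -- replace `w` by its translate
    have key : ∀ w : Fin m → V, P (TT (ρ s) (theta ω m (fun l => ρ s (w l)))) =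
        TT (ρ s) (P (theta ω m (fun l => ρ s (w l)))) := by
      intro w
      have h2 : TT (ρ s) (theta ω m (fun l => ρ s (w l))) = (χ s ^ m) • theta ω m w := by
        ext v
        rw [TT_apply, MultilinearMap.smul_apply, theta_apply, theta_apply, smul_eq_mul]
        rw [Finset.prod_congr rfl (fun l _ => hωρ s (w l) (v l)), Finset.prod_mul_distrib,
          Finset.prod_const, Finset.card_univ, Fintype.card_fin]
      rw [h2, map_smul]
      ext v
      rw [MultilinearMap.smul_apply, smul_eq_mul, TT_apply]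
      have h3 := h s hs (fun i => if i.2 = 0 then v i.1 else w i.1)
      rw [formOf_apply, formOf_apply] at h3
      simp only [if_true, one_ne_zero, if_false] at h3
      exact h3.symm
    have h4 := key (fun l => ρ s⁻¹ (w l))
    simp only [rho_inv'] at h4
    exact h4
  intro φ
  exact congrArg (fun A : Module.End Ω (MultilinearMap Ω (fun _ : Fin m => V) Ω) => A φ) h1

/-- The contragredient action on forms. -/
def formRep (κ : Type*) [Fintype κ] [DecidableEq κ] :
    Representation Ω Γ (MultilinearMap Ω (fun _ : κ => V) Ω) where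
  toFun s := TT (ρ s⁻¹)
  map_one' := by
    refine LinearMap.ext fun φ => ?_
    ext v
    rw [TT_apply, inv_one, map_one]
    rfl
  map_mul' s t := by
    refine LinearMap.ext fun φ => ?_
    ext v
    rw [TT_apply, mul_inv_rev, map_mul]
    rfl

include hbr hD hinv hne hjj hj0 hω hsp hconj hss hcomm hωρ in
/-- Semisimplicity of the space of forms under a subgroup of finite index, if its stable subspaces
are stable under the Lie algebra. -/
theorem proj_group (hj1 : ∀ x, jj x = 1 ∨ jj x = -1) {m : ℕ} (Δ : Subgroup Γ)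
    (U : Submodule Ω (MultilinearMap Ω (fun _ : Fin m => V) Ω))
    (hUΔ : ∀ s ∈ Δ, ∀ φ ∈ U, TT (ρ s) φ ∈ U)
    (hU : ∀ a b, SS ω (e a) (e b) ∈ 𝔤 → ∀ φ ∈ U, dF (SS ω (e a) (e b)) φ ∈ U) :
    ∃ P : Module.End Ω (MultilinearMap Ω (fun _ : Fin m => V) Ω), (∀ φ, P φ ∈ U) ∧
      (∀ φ ∈ U, P φ = φ) ∧ ∀ s ∈ Δ, ∀ φ, P (TT (ρ s) φ) = TT (ρ s) (P φ) := by
  obtain ⟨P, hP1, hP2, hP3⟩ := proj_forms e 𝔤 hbr hD hinv hne hjj hj0 ω hω hsp ρ hconj hss hcomm
    hj1 U hU
  have h1 := killed_mem e 𝔤 hbr hD hinv hne hjj hj0 ω hω hsp ρ χ hconj hss hcomm hωρ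
    (formOf ω m P) (fun a b h => kills_formOf ω m P (fun u w => hsp _ h u w) (fun φ => hP3 a b h φ))
  obtain ⟨Δ', hΔ', hP4⟩ := comm_of_isTate e hinv hj0 ω hω ρ χ hωρ m P (isTate_of_PT ρ χ h1)
  obtain ⟨Q, hQ1, hQ2, hQ3⟩ := average (formRep ρ (Fin m)) Δ Δ' hΔ' U
    (fun s hs φ hφ => hUΔ _ (Δ.inv_mem hs) φ hφ) P hP1 hP2
    (fun s hs φ => hP4 _ (Δ'.inv_mem hs) φ)
  refine ⟨Q, hQ1, hQ2, fun s hs φ => ?_⟩
  have h2 := hQ3 s⁻¹ (Δ.inv_mem hs) φ
  change Q (TT (ρ s⁻¹⁻¹) φ) = TT (ρ s⁻¹⁻¹) (Q φ) at h2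
  rw [inv_inv] at h2
  exact h2

end

end Pool.Agent.W529.Ta
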