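import Mathlib
import Pool.Agent.H86.CMLib.W529.Ta.Basis

/-!
# Symplectic bases
-/

set_option linter.unusedSectionVars false
set_option linter.deprecated false

namespace Pool.Agent.W529.Ta

open Module Pool.Agent.H204R3.CM Pool.Agent.H204R3.SP Pool.Agent.H204R3.GP

noncomputable section

theorem alt_anti {k : Type*} [Field k] {V : Type*} [AddCommGroup V] [Module k V]
    {ω : V →ₗ[k] V →ₗ[k] k} (halt : ∀ v, ω v v = 0) (u v : V) : ω u v = -ω v u := by
  have h1 := halt (u + v)
  simp only [map_add, LinearMap.add_apply, halt, zero_add, add_zero] at h1
  exact eq_neg_of_add_eq_zero_left (by rw [← h1]; ring)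

theorem exists_darboux {k : Type*} [Field k] (n : ℕ) : ∀ (V : Type*) [AddCommGroup V]
    [Module k V] [FiniteDimensional k V] (ω : V →ₗ[k] V →ₗ[k] k) (_ : ∀ v, ω v v = 0)
    (_ : ∀ u, (∀ v, ω v u = 0) → u = 0) (_ : finrank k V ≤ n),
    ∃ (R : Type) (_ : Fintype R) (_ : DecidableEq R) (e : Basis R k V) (inv : R → R) (jj : R → k),
      (∀ x, inv (inv x) = x) ∧ (∀ x, inv x ≠ x) ∧ (∀ x, jj (inv x) = -jj x) ∧
      (∀ x, jj x = 1 ∨ jj x = -1) ∧ ∀ x y, ω (e x) (e y) = JJ inv jj x y := by
  classical
  induction n with
  | zero =>
    intro V _ _ _ ω _ _ h
    have h0 : finrank k V = 0 := Nat.le_zero.1 h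
    have hsub : Subsingleton V := finrank_zero_iff.1 h0
    refine ⟨Empty, inferInstance, inferInstance, Basis.empty V, id, fun _ => 1, fun x => x.elim,
      fun x => x.elim, fun x => x.elim, fun x => x.elim, fun x => x.elim⟩
  | succ n ih =>
    intro V _ _ _ ω halt hnd h
    by_cases hV : ∃ a : V, a ≠ 0
    · obtain ⟨a, ha⟩ := hV
      obtain ⟨b', hb'⟩ : ∃ v, ω v a ≠ 0 := by
        by_contra hcon
        push Not at hcon
        exact ha (hnd a hcon)
      have hanti := alt_anti halt
      -- normalise
      obtain ⟨b, hab⟩ : ∃ b, ω a b = 1 := by
        refine ⟨-(ω b' a)⁻¹ • b', ?_⟩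
        rw [map_smul, hanti a b', smul_eq_mul]
        field_simp
      have hba : ω b a = -1 := by rw [hanti, hab]
      let W : Submodule k V := LinearMap.ker (ω a) ⊓ LinearMap.ker (ω b)
      have hWa : ∀ w : W, ω a w = 0 := fun w => w.2.1
      have hWb : ∀ w : W, ω b w = 0 := fun w => w.2.2
      have hWa' : ∀ w : W, ω w a = 0 := fun w => by rw [hanti, hWa, neg_zero]
      have hWb' : ∀ w : W, ω w b = 0 := fun w => by rw [hanti, hWb, neg_zero]
      have hpr : ∀ v : V, v + ω b v • a - ω a v • b ∈ W := by
        intro v
        constructor
        · change ω a (v + ω b v • a - ω a v • b) = 0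
          rw [map_sub, map_add, map_smul, map_smul, halt, hab, smul_zero, smul_eq_mul]
          ring
        · change ω b (v + ω b v • a - ω a v • b) = 0
          rw [map_sub, map_add, map_smul, map_smul, halt, hba, smul_zero, smul_eq_mul]
          ring
      let E : V ≃ₗ[k] W × (Bool → k) :=
        { toFun := fun v => (⟨v + ω b v • a - ω a v • b, hpr v⟩,
            fun t => if t then ω a v else -ω b v)
          map_add' := fun u v => by
            refine Prod.ext (Subtype.ext ?_) (funext fun t => ?_)
            · change (u + v) + ω b (u + v) • a - ω a (u + v) • b =
                (u + ω b u • a - ω a u • b) + (v + ω b v • a - ω a v • b)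
              rw [map_add, map_add, add_smul, add_smul]
              abel
            · cases t
              · change -ω b (u + v) = -ω b u + -ω b v
                rw [map_add]
                ring
              · change ω a (u + v) = ω a u + ω a v
                rw [map_add]
          map_smul' := fun c v => by
            refine Prod.ext (Subtype.ext ?_) (funext fun t => ?_)
            · change c • v + ω b (c • v) • a - ω a (c • v) • b =
                c • (v + ω b v • a - ω a v • b)
              rw [map_smul, map_smul, smul_sub, smul_add, smul_smul, smul_smul]
              rfl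
            · cases t
              · change -ω b (c • v) = c • -ω b v
                rw [map_smul, smul_neg]
              · change ω a (c • v) = c • ω a v
                rw [map_smul]
          invFun := fun w => w.1 + w.2 false • a + w.2 true • b
          left_inv := fun v => by
            change (v + ω b v • a - ω a v • b) + (-ω b v) • a + ω a v • b = v
            rw [neg_smul]
            abel
          right_inv := fun w => by
            have e1 : ω a ((w.1 : V) + w.2 false • a + w.2 true • b) = w.2 true := by
              rw [map_add, map_add, map_smul, map_smul, hWa, halt, hab, smul_zero, smul_eq_mul]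
              ring
            have e2 : ω b ((w.1 : V) + w.2 false • a + w.2 true • b) = -w.2 false := by
              rw [map_add, map_add, map_smul, map_smul, hWb, halt, hba, smul_zero, smul_eq_mul]
              ring
            refine Prod.ext (Subtype.ext ?_) (funext fun t => ?_)
            · change ((w.1 : V) + w.2 false • a + w.2 true • b) +
                ω b ((w.1 : V) + w.2 false • a + w.2 true • b) • a -
                ω a ((w.1 : V) + w.2 false • a + w.2 true • b) • b = w.1
              rw [e1, e2, neg_smul]
              abel
            · cases t
              · change -ω b ((w.1 : V) + w.2 false • a + w.2 true • b) = w.2 false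
                rw [e2, neg_neg]
              · change ω a ((w.1 : V) + w.2 false • a + w.2 true • b) = w.2 true
                rw [e1] }
      have hfr : finrank k V = finrank k W + 2 := by
        rw [LinearEquiv.finrank_eq E, Module.finrank_prod, Module.finrank_fintype_fun_eq_card]
        rfl
      let ω' : W →ₗ[k] W →ₗ[k] k := ω.domRestrict₁₂ W W
      have hω' : ∀ u v : W, ω' u v = ω u v := fun u v => rfl
      obtain ⟨R, _, _, e, inv, jj, hinv, hne, hjj, hj1, hω⟩ := ih W ω' (fun w => halt w)
        (fun u hu => by
          apply Subtype.ext
          apply hnd
          intro v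
          have h1 : v = ((⟨v + ω b v • a - ω a v • b, hpr v⟩ : W) : V) +
              (-ω b v) • a + ω a v • b := by
            change v = (v + ω b v • a - ω a v • b) + (-ω b v) • a + ω a v • b
            rw [neg_smul]
            abel
          rw [h1, map_add, map_add, LinearMap.add_apply, LinearMap.add_apply, map_smul, map_smul,
            LinearMap.smul_apply, LinearMap.smul_apply, hWa, hWb, smul_zero, smul_zero, add_zero,
            add_zero]
          exact hu ⟨_, hpr v⟩)
        (by omega)
      let B : Basis (R ⊕ Bool) k V := (e.prod (Pi.basisFun k Bool)).map E.symm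
      have hB1 : ∀ x, B (Sum.inl x) = e x := by
        intro x
        change E.symm ((e.prod (Pi.basisFun k Bool)) (Sum.inl x)) = _
        rw [Basis.prod_apply]
        change ((e x : W) : V) + (0 : Bool → k) false • a + (0 : Bool → k) true • b = _
        simp
      have hB2 : B (Sum.inr false) = a := by
        change E.symm ((e.prod (Pi.basisFun k Bool)) (Sum.inr false)) = _
        rw [Basis.prod_apply]
        change ((0 : W) : V) + (Pi.basisFun k Bool false) false • a +
          (Pi.basisFun k Bool false) true • b = _
        simp
      have hB3 : B (Sum.inr true) = b := by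
        change E.symm ((e.prod (Pi.basisFun k Bool)) (Sum.inr true)) = _
        rw [Basis.prod_apply]
        change ((0 : W) : V) + (Pi.basisFun k Bool true) false • a +
          (Pi.basisFun k Bool true) true • b = _
        simp
      refine ⟨R ⊕ Bool, inferInstance, inferInstance, B, Sum.map inv not,
        Sum.elim jj (fun t => if t then -1 else 1), ?_, ?_, ?_, ?_, ?_⟩
      · rintro (x | t)
        · simp [hinv]
        · simp
      · rintro (x | t)
        · simpa using hne x
        · simp
      · rintro (x | t)
        · simpa using hjj x
        · cases t <;> simp
      · rintro (x | t)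
        · simpa using hj1 x
        · cases t <;> simp
      · rintro (x | t) (y | u)
        · rw [hB1, hB1]
          have h1 := hω x y
          rw [hω'] at h1
          rw [h1]
          simp [JJ]
        · rw [hB1]
          cases u
          · rw [hB2, hWa']
            simp [JJ]
          · rw [hB3, hWb']
            simp [JJ]
        · rw [hB1]
          cases t
          · rw [hB2, hWa]
            simp [JJ]
          · rw [hB3, hWb]
            simp [JJ]
        · cases t <;> cases u <;> simp [hB2, hB3, halt, hab, hba, JJ]
    · push Not at hV
      have hsub : Subsingleton V := ⟨fun a b => by rw [hV a, hV b]⟩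
      refine ⟨Empty, inferInstance, inferInstance, Basis.empty V, id, fun _ => 1, fun x => x.elim,
        fun x => x.elim, fun x => x.elim, fun x => x.elim, fun x => x.elim⟩

end

end Pool.Agent.W529.Ta
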