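import Mathlib
import Pool.Agent.H86.CMLib.H204R3.SP.Frob
import Pool.Agent.H86.CMLib.W529.Ta.Basis

/-!
# The eigenbasis over a finite normal extension, adapted to the alternating form
-/

set_option linter.unusedSectionVars false
set_option linter.deprecated false

namespace Pool.Agent.W529.Ta

open Module TensorProduct Pool.Agent.H204R3.CM Pool.Agent.H204R3.SP Pool.Agent.H204R3.GP

noncomputable section

theorem exists_data {k : Type*} [Field k] [CharZero k] (K : Type*) [Field K] [Algebra k K]
    [IsAlgClosed K] [Algebra.IsAlgebraic k K] {V : Type*} [AddCommGroup V]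
    [Module k V] [FiniteDimensional k V] {Γ : Type*} [Group Γ] (ρ : Representation k Γ V)
    (χ : Γ →* k) (ω : V →ₗ[k] V →ₗ[k] k) (halt : ∀ v, ω v v = 0)
    (hnd : ∀ u, (∀ v, ω v u = 0) → u = 0)
    (hωρ : ∀ s u v, ω (ρ s u) (ρ s v) = χ s * ω u v) (γ : Γ) {g : ℕ}
    (lam : Fin g → K)
    (hγ : (ρ γ).charpoly.map (algebraMap k (K)) =
      ∏ i, ((Polynomial.X - Polynomial.C (lam i)) * (Polynomial.X -
        Polynomial.C (algebraMap k (K) (χ γ) / lam i))))
    (hind : ∀ (c : Fin g → ℤ) (d : ℤ),
      ∏ i, lam i ^ c i = algebraMap k (K) (χ γ) ^ d → ∀ i, c i = 0) :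
    ∃ (Ω : IntermediateField k (K)) (_ : FiniteDimensional k Ω) (_ : Normal k Ω)
      (val : Fin g × Bool → Ω) (e : Basis (Fin g × Bool) Ω (Ω ⊗[k] V)),
      (∀ i, lam i ≠ 0) ∧
      (∀ x, (val x : K) =
        eig lam (algebraMap k (K) (χ γ)) x) ∧
      (∀ x, val x ≠ 0) ∧
      NoRel val (algebraMap k Ω (χ γ)) flip ∧
      (∀ x, bcr ρ Ω γ (e x) = val x • e x) ∧
      (∀ x y, bcb Ω ω (e x) (e y) = JJ flip sgn x y) := by
  classical
  set Q : K := algebraMap k K (χ γ) with hQ
  set P : Polynomial k := (ρ γ).charpoly with hP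
  have hχ0 : χ γ ≠ 0 := by
    intro h
    have h1 : χ γ * χ γ⁻¹ = 1 := by rw [← map_mul, mul_inv_cancel, map_one]
    rw [h, zero_mul] at h1
    exact zero_ne_one h1
  have hQ0 : Q ≠ 0 := (map_ne_zero _).2 hχ0
  -- nonzero eigenvalues
  have hinjT : ∀ w : K ⊗[k] V, (ρ γ).baseChange K w = 0 → w = 0 := by
    intro w hw
    have h1 : (ρ γ⁻¹).baseChange K ((ρ γ).baseChange K w) = w := by
      rw [← LinearMap.comp_apply, ← LinearMap.baseChange_comp]
      have h2 : (ρ γ⁻¹).comp (ρ γ) = LinearMap.id := by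
        have h3 : ρ γ⁻¹ * ρ γ = 1 := by rw [← map_mul, inv_mul_cancel, map_one]
        exact h3
      rw [h2, LinearMap.baseChange_id, LinearMap.id_apply]
    rw [← h1, hw, map_zero]
  have hroot : ∀ x : Fin g × Bool, (P.map (algebraMap k K)).eval (eig lam Q x) = 0 := by
    rintro ⟨i, b⟩
    rw [hγ, Polynomial.eval_prod]
    refine Finset.prod_eq_zero (Finset.mem_univ i) ?_
    cases b
    · simp [eig]
    · simp [eig]
  have hl0 : ∀ i, lam i ≠ 0 := by
    intro i h0
    have h1 : Module.End.HasEigenvalue ((ρ γ).baseChange K) (lam i) := by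
      rw [Module.End.hasEigenvalue_iff_isRoot_charpoly, LinearMap.charpoly_baseChange]
      exact hroot (i, false)
    obtain ⟨v, hv⟩ := h1.exists_hasEigenvector
    have h2 := hv.apply_eq_smul
    rw [h0, zero_smul] at h2
    exact hv.2 (hinjT v h2)
  have heig0 : ∀ x, eig lam Q x ≠ 0 := by
    intro x h0
    have h1 := eig_mul (q := Q) hl0 x
    rw [h0, zero_mul] at h1
    exact hQ0 h1.symm
  have hPne : P.map (algebraMap k K) ≠ 0 :=
    (Polynomial.map_ne_zero_iff (algebraMap k K).injective).2 (LinearMap.charpoly_monic _).ne_zero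
  -- the field
  obtain ⟨Ω, hΩ⟩ : ∃ Ω : IntermediateField k K, Ω = IntermediateField.adjoin k (P.rootSet K) :=
    ⟨_, rfl⟩
  have hfd : FiniteDimensional k Ω := by
    rw [hΩ]
    have _ : Finite (P.rootSet K) := inferInstance
    refine IntermediateField.finiteDimensional_adjoin fun x _ => ?_
    exact (Algebra.IsAlgebraic.isAlgebraic x).isIntegral
  have hnormal : Normal k Ω := by
    have h1 := IntermediateField.adjoin_rootSet_isSplittingField (p := P) (K := k) (L := K)
      (IsAlgClosed.splits _)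
    rw [hΩ]
    exact Normal.of_isSplittingField (hFEp := h1)
  have hmem : ∀ x, eig lam Q x ∈ Ω := by
    intro x
    rw [hΩ]
    refine IntermediateField.subset_adjoin k _ ?_
    rw [Polynomial.mem_rootSet]
    refine ⟨(LinearMap.charpoly_monic _).ne_zero, ?_⟩
    rw [Polynomial.aeval_def, ← Polynomial.eval_map]
    exact hroot x
  let val : Fin g × Bool → Ω := fun x => ⟨eig lam Q x, hmem x⟩
  have hval : ∀ x, (val x : K) = eig lam Q x := fun x => rfl
  have hval0 : ∀ x, val x ≠ 0 := fun x h => heig0 x (congrArg (fun z : Ω => (z : K)) h)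
  have hQΩ : ((algebraMap k Ω (χ γ) : Ω) : K) = Q := rfl
  have hrel : NoRel val (algebraMap k Ω (χ γ)) flip := by
    intro c d h
    refine noRel_eig hl0 hQ0 hind c d ?_
    have h1 := congrArg (fun z : Ω => (algebraMap Ω K) z) h
    simp only [map_prod, map_zpow₀] at h1
    exact h1
  have hinjv : Function.Injective val := by
    intro x y hxy
    apply inj_of_noRel flip_ne hval0 hrel one_pos
    simp only [hxy]
  have hchar : (bcr ρ Ω γ).charpoly = ∏ x, (Polynomial.X - Polynomial.C (val x)) := by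
    apply Polynomial.map_injective (algebraMap Ω K) (algebraMap Ω K).injective
    change ((ρ γ).baseChange Ω).charpoly.map (algebraMap Ω K) = _
    rw [LinearMap.charpoly_baseChange, Polynomial.map_map, ← IsScalarTower.algebraMap_eq, hγ,
      Polynomial.map_prod, Fintype.prod_prod_type]
    refine Finset.prod_congr rfl fun i _ => ?_
    rw [Fintype.prod_bool, Polynomial.map_sub, Polynomial.map_sub, Polynomial.map_X,
      Polynomial.map_C, Polynomial.map_C, mul_comm]
    rfl
  obtain ⟨e0, he0⟩ := exists_eigenbasis (bcr ρ Ω γ) val hinjv hchar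
  -- the form
  let b := Module.finBasis k V
  have hanti : ∀ u v, ω u v = -ω v u := by
    intro u v
    have h1 := halt (u + v)
    simp only [map_add, LinearMap.add_apply, halt, zero_add, add_zero] at h1
    exact eq_neg_of_add_eq_zero_left (by rw [← h1]; ring)
  have hnd' : ∀ u, (∀ v, ω u v = 0) → u = 0 := by
    intro u hu
    apply hnd
    intro v
    rw [hanti, hu, neg_zero]
  have hantiΩ : ∀ u v, bcb Ω ω u v = -bcb Ω ω v u := by
    have h1 : bcb Ω ω = -(bcb Ω ω).flip := by
      refine (b.baseChange Ω).ext fun i => (b.baseChange Ω).ext fun l => ?_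
      rw [LinearMap.neg_apply, LinearMap.neg_apply, LinearMap.flip_apply, Basis.baseChange_apply,
        Basis.baseChange_apply, bcb_one, bcb_one, hanti, map_neg]
    intro u v
    exact congrArg (fun F : (Ω ⊗[k] V) →ₗ[Ω] (Ω ⊗[k] V) →ₗ[Ω] Ω => F u v) h1
  have hq : ∀ x y : Fin g × Bool, y ≠ flip x → bcb Ω ω (e0 x) (e0 y) = 0 := by
    intro x y hxy
    by_contra h0
    apply hxy
    have h1 := bcb_inv ρ χ (Ω := Ω) ω hωρ γ (e0 x) (e0 y)
    rw [he0, he0, map_smul, map_smul, LinearMap.smul_apply, smul_eq_mul, smul_eq_mul, bcc_apply,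
      ← mul_assoc] at h1
    have h2 := mul_right_cancel₀ h0 h1
    apply hinjv
    apply mul_left_cancel₀ (hval0 x)
    have h3 : val x * val (flip x) = algebraMap k Ω (χ γ) := by
      apply (algebraMap Ω K).injective
      rw [map_mul]
      exact eig_mul hl0 x
    rw [h3, mul_comm, h2]
  let jj : Fin g × Bool → Ω := fun x => bcb Ω ω (e0 x) (e0 (flip x))
  have hjj : ∀ x, jj (flip x) = -jj x := by
    intro x
    simp only [jj, flip_flip]
    exact hantiΩ _ _
  have hj0 : ∀ x, jj x ≠ 0 := by
    intro x h0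
    apply e0.ne_zero (flip x)
    apply bcb_nondeg b ω hnd hnd'
    have h1 : (bcb Ω ω).flip (e0 (flip x)) = 0 := by
      refine e0.ext fun y => ?_
      rw [LinearMap.flip_apply, LinearMap.zero_apply]
      by_cases hy : flip x = flip y
      · have h2 : y = x := by rw [← flip_flip y, ← hy, flip_flip]
        rw [h2]
        exact h0
      · exact hq _ _ hy
    intro v
    exact congrArg (fun F : (Ω ⊗[k] V) →ₗ[Ω] Ω => F v) h1
  -- rescaling
  let w : Fin g × Bool → Ωˣ := fun x => if x.2 then (Units.mk0 (jj (x.1, false)) (hj0 _))⁻¹ else 1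
  let e := e0.unitsSMul w
  have he : ∀ x, e x = (w x : Ω) • e0 x := by
    intro x
    rw [Basis.unitsSMul_apply]
    rfl
  refine ⟨Ω, hfd, hnormal, val, e, hl0, hval, hval0, hrel, ?_, ?_⟩
  · intro x
    rw [he, map_smul, he0, smul_comm]
  · intro x y
    rw [he, he, map_smul, map_smul, LinearMap.smul_apply, smul_eq_mul, smul_eq_mul]
    unfold JJ
    by_cases hy : y = flip x
    · rw [if_pos hy, hy]
      obtain ⟨i, c⟩ := x
      change (w (flip (i, c)) : Ω) * ((w (i, c) : Ω) * jj (i, c)) = _
      cases c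
      · simp only [flip, w, sgn, Bool.not_false, if_true, Bool.false_eq_true, if_false,
          Units.val_one, one_mul, Units.val_inv_eq_inv_val, Units.val_mk0]
        exact inv_mul_cancel₀ (hj0 _)
      · have h1 : jj (i, true) = -jj (i, false) := hjj (i, false)
        simp only [flip, w, sgn, Bool.not_true, if_true, Bool.false_eq_true, if_false,
          Units.val_one, one_mul, Units.val_inv_eq_inv_val, Units.val_mk0]
        rw [h1, mul_neg, inv_mul_cancel₀ (hj0 _)]
    · rw [if_neg hy, hq x y hy, mul_zero, mul_zero]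

end

end Pool.Agent.W529.Ta
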