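import Mathlib
import Pool.Agent.H86.CMLib.W529.Ta.Isotropic

/-!
# Semisimplicity of all spaces of forms and generation of the Tate forms in degree two
-/

set_option linter.unusedSectionVars false
set_option linter.deprecated false

namespace Pool.Agent.W529.Ta

open Module TensorProduct Pool.Agent.H204R3.CM Pool.Agent.H204R3.SP Pool.Agent.H204R3.GP

noncomputable section

/-! ## Descent of projections on spaces of forms -/

section Descent

variable {k Ω : Type*} [Field k] [Field Ω] [Algebra k Ω] {V : Type*} [AddCommGroup V] [Module k V]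
  {ν : Type*} [Fintype ν] [DecidableEq ν] (b : Basis ν k V) {κ : Type*} [Fintype κ] [DecidableEq κ]

/-- Base change of forms as a linear map. -/
def bcmL : MultilinearMap k (fun _ : κ => V) k →ₗ[k]
    MultilinearMap Ω (fun _ : κ => Ω ⊗[k] V) Ω where
  toFun φ := bcm b φ
  map_add' φ ψ := by
    refine Basis.ext_multilinear (fun _ => b.baseChange Ω) fun J => ?_
    rw [MultilinearMap.add_apply, bcm_basis, bcm_basis, bcm_basis, MultilinearMap.add_apply,
      map_add]
  map_smul' c φ := by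
    refine Basis.ext_multilinear (fun _ => b.baseChange Ω) fun J => ?_
    rw [RingHom.id_apply, MultilinearMap.smul_apply, bcm_basis, bcm_basis,
      MultilinearMap.smul_apply, smul_eq_mul, map_mul, Algebra.smul_def]

/-- Descent of forms along a linear function. -/
def desc (π : Ω →ₗ[k] k) : MultilinearMap Ω (fun _ : κ => Ω ⊗[k] V) Ω →ₗ[k]
    MultilinearMap k (fun _ : κ => V) k where
  toFun F := π.compMultilinearMap
    ((F.restrictScalars k).compLinearMap (fun _ => TensorProduct.mk k Ω V 1))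
  map_add' F G := by
    ext v
    exact map_add π _ _
  map_smul' c F := by
    ext v
    exact map_smul π c _

theorem desc_apply (π : Ω →ₗ[k] k) (F : MultilinearMap Ω (fun _ : κ => Ω ⊗[k] V) Ω) (v : κ → V) :
    desc π F v = π (F (fun l => (1 : Ω) ⊗ₜ[k] v l)) := rfl

theorem desc_bcm (π : Ω →ₗ[k] k) (φ : MultilinearMap k (fun _ : κ => V) k) :
    desc π (bcm (Ω := Ω) b φ) = π 1 • φ := by
  ext v
  rw [desc_apply, bcm_one, Algebra.algebraMap_eq_smul_one, map_smul, MultilinearMap.smul_apply,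
    smul_eq_mul, smul_eq_mul, mul_comm]

theorem desc_mem (U : Submodule k (MultilinearMap k (fun _ : κ => V) k))
    (F : MultilinearMap Ω (fun _ : κ => Ω ⊗[k] V) Ω)
    (hF : F ∈ Submodule.span Ω ((fun φ => bcm (Ω := Ω) b φ) '' (U : Set _))) :
    ∀ π : Ω →ₗ[k] k, desc π F ∈ U := by
  induction hF using Submodule.span_induction with
  | mem F hF =>
    obtain ⟨φ, hφ, rfl⟩ := hF
    intro π
    change desc π (bcm b φ) ∈ U
    rw [desc_bcm]
    exact U.smul_mem _ hφ
  | zero =>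
    intro π
    rw [map_zero]
    exact U.zero_mem
  | add F G _ _ hF hG =>
    intro π
    rw [map_add]
    exact U.add_mem (hF π) (hG π)
  | smul c F _ hF =>
    intro π
    exact hF (π.comp (LinearMap.mulLeft k c))

variable {Γ : Type*} [Group Γ] (ρ : Representation k Γ V)

theorem bcm_TT (s : Γ) (φ : MultilinearMap k (fun _ : κ => V) k) :
    TT (bcr ρ Ω s) (bcm (Ω := Ω) b φ) = bcm b (TT (ρ s) φ) := by
  refine Basis.ext_multilinear (fun _ => b.baseChange Ω) fun I => ?_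
  rw [TT_apply, bcm_basis, TT_apply]
  have h2 : ∀ l, bcr ρ Ω s (b.baseChange Ω (I l)) = (1 : Ω) ⊗ₜ[k] ρ s (b (I l)) := by
    intro l
    rw [Basis.baseChange_apply, bcr_tmul]
  simp only [h2]
  rw [bcm_one]

theorem desc_TT (π : Ω →ₗ[k] k) (s : Γ) (F : MultilinearMap Ω (fun _ : κ => Ω ⊗[k] V) Ω) :
    desc π (TT (bcr ρ Ω s) F) = TT (ρ s) (desc π F) := by
  ext v
  rw [desc_apply, TT_apply, TT_apply, desc_apply]
  rfl

end Descent

/-! ## The main theorem -/

variable {k : Type*} [Field k] [CharZero k] (K : Type*) [Field K] [Algebra k K]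
    [IsAlgClosed K] [Algebra.IsAlgebraic k K] {V : Type*} [AddCommGroup V]
    [Module k V] [FiniteDimensional k V] {Γ : Type*} [Group Γ] (ρ : Representation k Γ V)
    (χ : Γ →* k) (ω : V →ₗ[k] V →ₗ[k] k)

/-- A stable subspace without stable isotropic subspaces has a complement. -/
theorem compl_of_isotropic (halt : ∀ v, ω v v = 0)
    (hnd : ∀ u, (∀ v, ω v u = 0) → u = 0)
    (hωρ : ∀ s u v, ω (ρ s u) (ρ s v) = χ s * ω u v) (Δ : Subgroup Γ)
    (hiso : ∀ N : Submodule k V, (∀ s ∈ Δ, ∀ u ∈ N, ρ s u ∈ N) →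
      (∀ u ∈ N, ∀ v ∈ N, ω u v = 0) → N = ⊥)
    (U : Submodule k V) (hU : ∀ s ∈ Δ, ∀ u ∈ U, ρ s u ∈ U) :
    ∃ U' : Submodule k V, (∀ s ∈ Δ, ∀ u ∈ U', ρ s u ∈ U') ∧ IsCompl U U' := by
  have hanti : ∀ u v, ω u v = -ω v u := by
    intro u v
    have h1 := halt (u + v)
    simp only [map_add, LinearMap.add_apply, halt, zero_add, add_zero] at h1
    exact eq_neg_of_add_eq_zero_left (by rw [← h1]; ring)
  have hrefl : LinearMap.BilinForm.IsRefl ω := by
    intro u v h
    rw [hanti, h, neg_zero]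
  have hnd' : ∀ u, (∀ v, ω u v = 0) → u = 0 := by
    intro u hu
    apply hnd
    intro v
    rw [hanti, hu, neg_zero]
  have hperp : ∀ s ∈ Δ, ∀ u ∈ LinearMap.BilinForm.orthogonal ω U,
      ρ s u ∈ LinearMap.BilinForm.orthogonal ω U := by
    intro s hs u hu
    rw [LinearMap.BilinForm.mem_orthogonal_iff] at hu ⊢
    intro n hn
    have h1 : ρ s (ρ s⁻¹ n) = n := rho_inv' ρ s n
    change ω n (ρ s u) = 0
    rw [← h1, hωρ]
    have h2 : ω (ρ s⁻¹ n) u = 0 := hu _ (hU _ (Δ.inv_mem hs) n hn)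
    rw [h2, mul_zero]
  refine ⟨LinearMap.BilinForm.orthogonal ω U, hperp, ?_⟩
  rw [LinearMap.BilinForm.isCompl_orthogonal_iff_disjoint hrefl, disjoint_iff]
  refine hiso _ ?_ ?_
  · intro s hs u hu
    exact ⟨hU s hs u hu.1, hperp s hs u hu.2⟩
  · intro u hu v hv
    exact hv.2 u hu.1

/-- The hypotheses on the element `γ`. -/
structure MaxTorus (γ : Γ) {g : ℕ} (lam : Fin g → K) : Prop where
  charpoly : (ρ γ).charpoly.map (algebraMap k K) =
    ∏ i, ((Polynomial.X - Polynomial.C (lam i)) * (Polynomial.X -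
      Polynomial.C (algebraMap k K (χ γ) / lam i)))
  indep : ∀ (c : Fin g → ℤ) (d : ℤ),
    ∏ i, lam i ^ c i = algebraMap k K (χ γ) ^ d → ∀ i, c i = 0

/-- Semisimplicity of `V` under all subgroups of finite index. -/
theorem semiUnder (halt : ∀ v, ω v v = 0) (hnd : ∀ u, (∀ v, ω v u = 0) → u = 0)
    (hωρ : ∀ s u v, ω (ρ s u) (ρ s v) = χ s * ω u v) (γ : Γ) {g : ℕ} (lam : Fin g → K)
    (hγ : MaxTorus K ρ χ γ lam)
    (hcase : (∀ i, minpoly k (lam i) = minpoly k (algebraMap k K (χ γ) / lam i)) ∨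
      (∀ (N : Submodule k V) (hN : ∀ s, ∀ u ∈ N, ρ s u ∈ N), ∃ (M : ℕ) (d : ℤ), 0 < M ∧
        LinearMap.det ((ρ γ).restrict (hN γ)) ^ M = χ γ ^ d))
    (Δ : Subgroup Γ) (hΔ : Δ.FiniteIndex) : SemiUnder (ρ '' (Δ : Set Γ)) := by
  classical
  obtain ⟨Ω, hfd, hnormal, val, e, hl0, hval, hval0, hrel, he, hω⟩ :=
    exists_data K ρ χ ω halt hnd hωρ γ lam hγ.charpoly hγ.indep
  have hinj1 : Function.Injective val := by
    intro x y hxy
    apply inj_of_noRel flip_ne hval0 hrel one_pos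
    simp only [hxy]
  rcases hcase with hdual | hdet
  · have hσ : ∀ x, ∃ σ : Ω ≃ₐ[k] Ω, σ (val x) = val (flip x) := by
      intro x
      have h1 : minpoly k (eig lam (algebraMap k K (χ γ)) x) =
          minpoly k (eig lam (algebraMap k K (χ γ)) (flip x)) := by
        obtain ⟨i, b⟩ := x
        cases b
        · exact hdual i
        · exact (hdual i).symm
      have h2 : minpoly k (val (flip x)) = minpoly k (val x) := by
        rw [← minpoly.algebraMap_eq (algebraMap Ω K).injective (val x),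
          ← minpoly.algebraMap_eq (algebraMap Ω K).injective (val (flip x))]
        have h3 : algebraMap Ω K (val x) = eig lam (algebraMap k K (χ γ)) x := hval x
        have h4 : algebraMap Ω K (val (flip x)) = eig lam (algebraMap k K (χ γ)) (flip x) :=
          hval (flip x)
        rw [h3, h4, h1]
      exact IsConjRoot.exists_algEquiv h2
    intro U hU
    obtain ⟨M, hM, -, hMΔ⟩ := Subgroup.exists_pow_mem_of_index_ne_zero hΔ.index_ne_zero γ
    obtain ⟨U', h1, h2⟩ := compl_of_isotropic ρ χ ω halt hnd hωρ Δ (by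
      intro N hN hiso
      refine isotropic_of_dual (Ω := Ω) e val (ρ γ) he (M := M)
        (inj_of_noRel flip_ne hval0 hrel hM) hinj1 ω hω hσ N hiso ?_
      intro u hu
      rw [← map_pow]
      exact hN _ hMΔ u hu) U (fun s hs u hu => hU _ ⟨s, hs, rfl⟩ u hu)
    refine ⟨U', ?_, h2⟩
    rintro _ ⟨s, hs, rfl⟩ u hu
    exact h1 s hs u hu
  · refine clifford ρ ?_ Δ hΔ
    intro U hU
    obtain ⟨U', h1, h2⟩ := compl_of_isotropic ρ χ ω halt hnd hωρ ⊤ (by
      intro N hN hiso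
      have hN' : ∀ s, ∀ u ∈ N, ρ s u ∈ N := fun s => hN s (Subgroup.mem_top s)
      exact isotropic_of_det (Ω := Ω) e val (χ γ) hrel (ρ γ) he hinj1 ω hω N hiso (hN' γ)
        (hdet N hN')) U (fun s _ => hU s)
    exact ⟨U', fun s => h1 s (Subgroup.mem_top s), h2⟩

/-- The main theorem over the base field. -/
theorem main (halt : ∀ v, ω v v = 0) (hnd : ∀ u, (∀ v, ω v u = 0) → u = 0)
    (hωρ : ∀ s u v, ω (ρ s u) (ρ s v) = χ s * ω u v) (γ : Γ) {g : ℕ} (lam : Fin g → K)
    (hγ : MaxTorus K ρ χ γ lam)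
    (hss : ∀ Δ : Subgroup Γ, Δ.FiniteIndex → SemiUnder (ρ '' (Δ : Set Γ))) :
    (∀ (m : ℕ) (Δ : Subgroup Γ), Δ.FiniteIndex →
      ∀ U : Submodule k (MultilinearMap k (fun _ : Fin m => V) k),
        (∀ s ∈ Δ, ∀ φ ∈ U, TT (ρ s) φ ∈ U) →
        ∃ U' : Submodule k (MultilinearMap k (fun _ : Fin m => V) k),
          (∀ s ∈ Δ, ∀ φ ∈ U', TT (ρ s) φ ∈ U') ∧ IsCompl U U') ∧
    (∀ (m : ℕ) (φ : MultilinearMap k (fun _ : Fin m × Fin 2 => V) k), IsTate ρ χ m φ →
      φ ∈ Submodule.span k (PT ρ χ m)) := by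
  classical
  obtain ⟨Ω, hfd, hnormal, val, e, hl0, hval, hval0, hrel, he, hω⟩ :=
    exists_data K ρ χ ω halt hnd hωρ γ lam hγ.charpoly hγ.indep
  have hmul : ∀ x, val x * val (flip x) = bcc χ Ω γ := by
    intro x
    apply (algebraMap Ω K).injective
    rw [map_mul]
    exact (congrArg₂ (fun a b : K => a * b) (hval x) (hval (flip x))).trans (eig_mul hl0 x)
  have hssΩ : HasProj (bcr ρ Ω) := by
    intro Δ hΔ U hU
    obtain ⟨P, hP1, hP2, hP3⟩ := exists_proj_baseChange (Ω := Ω) (ρ '' (Δ : Set Γ)) (hss Δ hΔ) U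
      (by
        rintro _ ⟨s, hs, rfl⟩ u hu
        exact hU s hs u hu)
    exact ⟨P, hP1, hP2, fun s hs v => hP3 _ ⟨s, hs, rfl⟩ v⟩
  have hbal : ∀ (m : ℕ) (φ : MultilinearMap Ω (fun _ : Fin m × Fin 2 => Ω ⊗[k] V) Ω),
      IsTate (bcr ρ Ω) (bcc χ Ω) m φ →
      ∀ I : Fin m × Fin 2 → Fin g × Bool, φ (fun l => e (I l)) ≠ 0 → ∀ y,
        (Finset.univ.filter (fun l => I l = y)).card =
          (Finset.univ.filter (fun l => I l = flip y)).card := by
    intro m φ hφ I hI y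
    exact balanced e (bcr ρ Ω) (bcc χ Ω) γ he hrel hval0 rfl hmul φ hφ I hI y
  have hωΩ := bcb_inv (Ω := Ω) ρ χ ω hωρ
  constructor
  · intro m Δ hΔ U hU
    let b := Module.finBasis k V
    have hD : ∀ y, DD e flip y ∈ lieP (bcr ρ Ω) (bcc χ Ω) := fun y =>
      DD_mem_lieP e (bcr ρ Ω) (bcc χ Ω) γ he hrel hval0 rfl hmul y
    have hcomm : ∀ Δ : Subgroup Γ, Δ.FiniteIndex → ∀ P : Module.End Ω (Ω ⊗[k] V),
        (∀ s ∈ Δ, ∀ v, P (bcr ρ Ω s v) = bcr ρ Ω s (P v)) →
        ∀ X ∈ lieP (bcr ρ Ω) (bcc χ Ω), ∀ v, X (P v) = P (X v) := by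
      intro Δ hΔ P hP X hX
      exact lieT_comm e flip_flip sgn_ne_zero (bcb Ω ω) hω (bcr ρ Ω) (bcc χ Ω) hωΩ Δ hΔ P hP X
        hX.1
    let UΩ : Submodule Ω (MultilinearMap Ω (fun _ : Fin m => Ω ⊗[k] V) Ω) :=
      Submodule.span Ω ((fun φ => bcm (Ω := Ω) b φ) '' (U : Set _))
    have hUΩ : ∀ s ∈ Δ, ∀ φ ∈ UΩ, TT (bcr ρ Ω s) φ ∈ UΩ := by
      intro s hs φ hφ
      induction hφ using Submodule.span_induction with
      | mem φ hφ =>
        obtain ⟨ψ, hψ, rfl⟩ := hφ
        refine Submodule.subset_span ⟨TT (ρ s) ψ, hU s hs ψ hψ, ?_⟩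
        exact (bcm_TT b ρ s ψ).symm
      | zero => rw [map_zero]; exact Submodule.zero_mem _
      | add a c _ _ ha hc => rw [map_add]; exact Submodule.add_mem _ ha hc
      | smul c a _ ha => rw [map_smul]; exact Submodule.smul_mem _ _ ha
    obtain ⟨P, hP1, hP2, hP3⟩ := proj_group e (lieP (bcr ρ Ω) (bcc χ Ω))
      (fun X hX Y hY => lieP_bracket (bcr ρ Ω) (bcc χ Ω) hX hY) hD flip_flip flip_ne sgn_flip
      sgn_ne_zero (bcb Ω ω) hω
      (fun X hX u w => lieT_sp (bcr ρ Ω) (bcc χ Ω) (bcb Ω ω) hωΩ hX.1 u w)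
      (bcr ρ Ω) (bcc χ Ω) (fun s X hX => lieP_conj (bcr ρ Ω) (bcc χ Ω) s hX) hssΩ hcomm hωΩ
      sgn_one Δ UΩ hUΩ (fun a c h φ hφ => h.2 m Δ hΔ UΩ hUΩ φ hφ)
    obtain ⟨π, hπ⟩ := LinearMap.exists_leftInverse_of_injective
      ((Algebra.linearMap k Ω)) (LinearMap.ker_eq_bot.2 (algebraMap k Ω).injective)
    have hπ1 : π 1 = 1 := by
      have h1 := LinearMap.congr_fun hπ 1
      rw [LinearMap.comp_apply, Algebra.linearMap_apply, map_one, LinearMap.id_apply] at h1
      exact h1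
    let Q : Module.End k (MultilinearMap k (fun _ : Fin m => V) k) :=
      { toFun := fun φ => desc π (P (bcm b φ))
        map_add' := fun φ ψ => by
          have h1 : bcm (Ω := Ω) b (φ + ψ) = bcm b φ + bcm b ψ := (bcmL (Ω := Ω) b).map_add φ ψ
          rw [h1, map_add, map_add]
        map_smul' := fun c φ => by
          have h1 : bcm (Ω := Ω) b (c • φ) = (algebraMap k Ω c) • bcm b φ := by
            refine Basis.ext_multilinear (fun _ => b.baseChange Ω) fun J => ?_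
            rw [MultilinearMap.smul_apply, bcm_basis, bcm_basis,
              MultilinearMap.smul_apply, smul_eq_mul, map_mul, smul_eq_mul]
          rw [h1, map_smul, RingHom.id_apply]
          ext v
          rw [desc_apply, MultilinearMap.smul_apply, MultilinearMap.smul_apply, desc_apply,
            algebraMap_smul, map_smul] }
    have hQ : ∀ φ, Q φ = desc π (P (bcm b φ)) := fun φ => rfl
    obtain ⟨U', h1, h2⟩ := compl_of_proj ((fun s => TT (κ := Fin m) (ρ s)) '' (Δ : Set Γ)) U Q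
      (by
        intro φ
        rw [hQ]
        exact desc_mem b U _ (hP1 _) π)
      (by
        intro φ hφ
        rw [hQ, hP2 _ (Submodule.subset_span ⟨φ, hφ, rfl⟩), desc_bcm, hπ1, one_smul])
      (by
        rintro _ ⟨s, hs, rfl⟩ φ
        change Q (TT (ρ s) φ) = TT (ρ s) (Q φ)
        rw [hQ, hQ, ← bcm_TT, hP3 s hs, desc_TT])
    exact ⟨U', fun s hs φ hφ => h1 _ ⟨s, hs, rfl⟩ φ hφ, h2⟩
  · intro m φ hφ
    refine tate_descentG (Ω := Ω) (Module.finBasis k V) ρ χ ?_ φ hφ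
    intro φ' hφ'
    exact tateG_mem e flip_flip flip_ne sgn_flip sgn_ne_zero (bcb Ω ω) hω (bcr ρ Ω) (bcc χ Ω)
      hωΩ hssΩ hbal φ' hφ'

end

end Pool.Agent.W529.Ta
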