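import Mathlib
import Pool.Agent.H86.CMLib.W529.Ta.Sep
import Pool.Agent.H86.CMLib.W529.Ta.Unip
import Pool.Agent.H86.CMLib.W529.Ta.Darboux

/-!
# A transvection and irreducibility
-/

set_option linter.unusedSectionVars false
set_option linter.deprecated false

namespace Pool.Agent.W529.Ta

open Module Pool.Agent.H204R3.CM Pool.Agent.H204R3.SP Pool.Agent.H204R3.GP

noncomputable section

variable {k : Type*} [Field k] [CharZero k] {V : Type*} [AddCommGroup V] [Module k V]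
  {Γ : Type*} [Group Γ] (ρ : Representation k Γ V) (χ : Γ →* k)
  (ω : V →ₗ[k] V →ₗ[k] k) (halt : ∀ v, ω v v = 0)
  (hnd : ∀ u, (∀ v, ω v u = 0) → u = 0)
  (hωρ : ∀ s u v, ω (ρ s u) (ρ s v) = χ s * ω u v)

include halt in
theorem SS_bracket (a b c d : V) : SS ω a b * SS ω c d - SS ω c d * SS ω a b =
    ω b c • SS ω a d + ω b d • SS ω a c + ω a c • SS ω b d + ω a d • SS ω b c := by
  have hanti := alt_anti halt
  refine LinearMap.ext fun u => ?_
  simp only [LinearMap.sub_apply, Module.End.mul_apply, LinearMap.add_apply, LinearMap.smul_apply,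
    SS_apply, map_add, map_smul, smul_add, smul_smul]
  rw [hanti c b, hanti d b, hanti c a, hanti d a]
  module

theorem SS_add_right (a b c : V) : SS ω a (b + c) = SS ω a b + SS ω a c := by
  refine LinearMap.ext fun u => ?_
  simp only [LinearMap.add_apply, SS_apply, map_add, smul_add, add_smul]
  abel

theorem SS_smul_right (r : k) (a b : V) : SS ω a (r • b) = r • SS ω a b := by
  refine LinearMap.ext fun u => ?_
  simp only [LinearMap.smul_apply, SS_apply, map_smul, smul_add, smul_smul, smul_eq_mul]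
  rw [mul_comm]

theorem SS_zero_right (a : V) : SS ω a 0 = 0 := by
  have h := SS_smul_right ω (0 : k) a 0
  rwa [zero_smul, zero_smul] at h

include hωρ in
theorem SS_rho (s : Γ) (a b : V) :
    SS ω (ρ s a) (ρ s b) = χ s • (ρ s * SS ω a b * ρ s⁻¹) := by
  refine LinearMap.ext fun u => ?_
  have h1 : ∀ a, ω (ρ s a) u = χ s * ω a (ρ s⁻¹ u) := by
    intro a
    rw [← hωρ, rho_inv']
  simp only [LinearMap.smul_apply, Module.End.mul_apply, SS_apply, map_add, map_smul, smul_add,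
    smul_smul, h1]

/-- All `SS ω u v` lie in `𝔤`, if `SS ω δ δ` does and the subgroups of finite index are
irreducible. -/
theorem SS_all [FiniteDimensional k V] (𝔤 : Submodule k (Module.End k V))
    (halt : ∀ v, ω v v = 0) (hnd : ∀ u, (∀ v, ω v u = 0) → u = 0)
    (hbr : ∀ X ∈ 𝔤, ∀ Y ∈ 𝔤, X * Y - Y * X ∈ 𝔤)
    (hconj : ∀ (s : Γ) (a b : V), SS ω a b ∈ 𝔤 → SS ω (ρ s a) (ρ s b) ∈ 𝔤)
    (hirr : ∀ Δ : Subgroup Γ, Δ.FiniteIndex → ∀ U : Submodule k V,
      (∀ s ∈ Δ, ∀ u ∈ U, ρ s u ∈ U) → U = ⊥ ∨ U = ⊤)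
    {δ : V} (hδ : δ ≠ 0) (hδδ : SS ω δ δ ∈ 𝔤) : ∀ u v, SS ω u v ∈ 𝔤 := by
  classical
  have hanti := alt_anti halt
  have hρ0 : ∀ s, ρ s δ ≠ 0 := by
    intro s h
    apply hδ
    rw [← rho_inv ρ s δ, h, map_zero]
  have hρρ : ∀ s t, ρ s (ρ t δ) = ρ (s * t) δ := by
    intro s t
    rw [map_mul]
    rfl
  have hρ1 : ρ (1 : Γ) δ = δ := by
    rw [map_one]
    rfl
  have h1 : ∀ s, SS ω (ρ s δ) (ρ s δ) ∈ 𝔤 := fun s => hconj s _ _ hδδ
  have hspan : Submodule.span k (Set.range fun s => ρ s δ) = ⊤ := by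
    refine (hirr ⊤ inferInstance _ ?_).resolve_left ?_
    · intro s _ u hu
      induction hu using Submodule.span_induction with
      | mem u hu =>
        obtain ⟨t, rfl⟩ := hu
        exact Submodule.subset_span ⟨s * t, (hρρ s t).symm⟩
      | zero => rw [map_zero]; exact Submodule.zero_mem _
      | add a b _ _ ha hb => rw [map_add]; exact Submodule.add_mem _ ha hb
      | smul c a _ ha => rw [map_smul]; exact Submodule.smul_mem _ _ ha
    · intro h
      apply hδ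
      have h2 : δ ∈ Submodule.span k (Set.range fun s => ρ s δ) :=
        Submodule.subset_span ⟨1, hρ1⟩
      rw [h] at h2
      exact (Submodule.mem_bot k).1 h2
  have h2 : ∀ b : V, b ≠ 0 → ∃ s, ω b (ρ s δ) ≠ 0 := by
    intro b hb
    by_contra hcon
    push Not at hcon
    apply hb
    apply hnd
    intro v
    rw [hanti, neg_eq_zero]
    have hv : v ∈ Submodule.span k (Set.range fun s => ρ s δ) := by
      rw [hspan]
      exact Submodule.mem_top
    induction hv using Submodule.span_induction with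
    | mem u hu =>
      obtain ⟨t, rfl⟩ := hu
      exact hcon t
    | zero => rw [map_zero]
    | add x y _ _ hx hy => rw [map_add, hx, hy, add_zero]
    | smul c x _ hx => rw [map_smul, hx, smul_zero]
  have h3 : ∀ s t, ω (ρ s δ) (ρ t δ) ≠ 0 → SS ω (ρ s δ) (ρ t δ) ∈ 𝔤 := by
    intro s t hst
    have h4 := hbr _ (h1 s) _ (h1 t)
    rw [SS_bracket ω halt] at h4
    have h5 : ω (ρ s δ) (ρ t δ) • SS ω (ρ s δ) (ρ t δ) + ω (ρ s δ) (ρ t δ) • SS ω (ρ s δ) (ρ t δ) +
        ω (ρ s δ) (ρ t δ) • SS ω (ρ s δ) (ρ t δ) + ω (ρ s δ) (ρ t δ) • SS ω (ρ s δ) (ρ t δ) =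
        (4 * ω (ρ s δ) (ρ t δ)) • SS ω (ρ s δ) (ρ t δ) := by
      module
    rw [h5] at h4
    exact (Submodule.smul_mem_iff _ (mul_ne_zero (by norm_num) hst)).1 h4
  have h5 : ∀ s b, SS ω (ρ s δ) b ∈ 𝔤 → ∀ t, ω b (ρ t δ) ≠ 0 → SS ω (ρ s δ) (ρ t δ) ∈ 𝔤 := by
    intro s b hsb t hbt
    by_cases hst : ω (ρ s δ) (ρ t δ) = 0
    · have h4 := hbr _ hsb _ (h1 t)
      rw [SS_bracket ω halt, hst, zero_smul, add_zero, add_zero, ← add_smul, ← two_mul] at h4
      exact (Submodule.smul_mem_iff _ (mul_ne_zero two_ne_zero hbt)).1 h4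
    · exact h3 s t hst
  have h9 : ∀ a b c, SS ω (ρ a δ) (ρ b δ) ∈ 𝔤 → SS ω (ρ b δ) (ρ c δ) ∈ 𝔤 →
      SS ω (ρ a δ) (ρ c δ) ∈ 𝔤 := by
    intro a b c hab hbc
    obtain ⟨d, hd⟩ := h2 _ (hρ0 b)
    have h6 := h5 a _ hab d hd
    have h7 := h5 c (ρ b δ) (by rw [SS_comm]; exact hbc) d hd
    have h8 := h3 b d hd
    have h10 := hbr _ hab _ h7
    rw [SS_bracket ω halt] at h10
    have h11 := Submodule.smul_mem 𝔤 (ω (ρ b δ) (ρ c δ)) h6
    have h12 := Submodule.smul_mem 𝔤 (ω (ρ a δ) (ρ c δ)) h8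
    have h13 := Submodule.smul_mem 𝔤 (ω (ρ a δ) (ρ d δ)) hbc
    have h14 := Submodule.sub_mem _ (Submodule.sub_mem _ (Submodule.sub_mem _ h10 h11) h12) h13
    have h15 : ω (ρ b δ) (ρ c δ) • SS ω (ρ a δ) (ρ d δ) +
        ω (ρ b δ) (ρ d δ) • SS ω (ρ a δ) (ρ c δ) + ω (ρ a δ) (ρ c δ) • SS ω (ρ b δ) (ρ d δ) +
        ω (ρ a δ) (ρ d δ) • SS ω (ρ b δ) (ρ c δ) - ω (ρ b δ) (ρ c δ) • SS ω (ρ a δ) (ρ d δ) -
        ω (ρ a δ) (ρ c δ) • SS ω (ρ b δ) (ρ d δ) - ω (ρ a δ) (ρ d δ) • SS ω (ρ b δ) (ρ c δ) =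
        ω (ρ b δ) (ρ d δ) • SS ω (ρ a δ) (ρ c δ) := by
      abel
    rw [h15] at h14
    exact (Submodule.smul_mem_iff _ hd).1 h14
  -- the stabilizer
  let H : Subgroup Γ :=
    { carrier := {s | SS ω δ (ρ s δ) ∈ 𝔤}
      one_mem' := by
        change SS ω δ (ρ 1 δ) ∈ 𝔤
        rw [hρ1]
        exact hδδ
      mul_mem' := by
        intro s t (hs : SS ω δ (ρ s δ) ∈ 𝔤) (ht : SS ω δ (ρ t δ) ∈ 𝔤)
        change SS ω δ (ρ (s * t) δ) ∈ 𝔤
        have h6 := hconj s _ _ ht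
        rw [hρρ] at h6
        have h7 := h9 1 s (s * t) (by rw [hρ1]; exact hs) h6
        rwa [hρ1] at h7
      inv_mem' := by
        intro s (hs : SS ω δ (ρ s δ) ∈ 𝔤)
        change SS ω δ (ρ s⁻¹ δ) ∈ 𝔤
        have h6 := hconj s⁻¹ _ _ hs
        rw [rho_inv, SS_comm] at h6
        exact h6 }
  have hH : ∀ s, s ∈ H ↔ SS ω δ (ρ s δ) ∈ 𝔤 := fun s => Iff.rfl
  have hli : LinearIndependent k (fun q : Γ ⧸ H => ρ q.out δ) := by
    rw [linearIndependent_iff']
    intro S g hg i hi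
    obtain ⟨d, hd⟩ := h2 _ (hρ0 i.out)
    have h6 := h3 _ _ hd
    have h7 : ∀ j ∈ S, j ≠ i → ω (ρ d δ) (ρ j.out δ) = 0 := by
      intro j _ hj
      by_contra hcon
      have h8 := h5 _ _ h6 _ hcon
      apply hj
      have h10 := hconj i.out⁻¹ _ _ h8
      rw [rho_inv, hρρ] at h10
      have h11 : i.out⁻¹ * j.out ∈ H := h10
      have h12 : (QuotientGroup.mk i.out : Γ ⧸ H) = QuotientGroup.mk j.out :=
        QuotientGroup.eq.2 h11
      rw [QuotientGroup.out_eq', QuotientGroup.out_eq'] at h12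
      exact h12.symm
    have h8 := congrArg (ω (ρ d δ)) hg
    rw [map_sum, map_zero, Finset.sum_eq_single i, map_smul, smul_eq_mul] at h8
    · rcases mul_eq_zero.1 h8 with h | h
      · exact h
      · exfalso
        apply hd
        rw [hanti, h, neg_zero]
    · intro j hj hji
      rw [map_smul, h7 j hj hji, smul_zero]
    · intro h
      exact absurd hi h
  have hfin : Finite (Γ ⧸ H) := hli.finite
  have hHfi : H.FiniteIndex := Subgroup.finiteIndex_of_finite_quotient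
  have hspanH : Submodule.span k ((fun s => ρ s δ) '' (H : Set Γ)) = ⊤ := by
    refine (hirr H hHfi _ ?_).resolve_left ?_
    · intro s hs u hu
      induction hu using Submodule.span_induction with
      | mem u hu =>
        obtain ⟨t, ht, rfl⟩ := hu
        exact Submodule.subset_span ⟨s * t, H.mul_mem hs ht, (hρρ s t).symm⟩
      | zero => rw [map_zero]; exact Submodule.zero_mem _
      | add a b _ _ ha hb => rw [map_add]; exact Submodule.add_mem _ ha hb
      | smul c a _ ha => rw [map_smul]; exact Submodule.smul_mem _ _ ha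
    · intro h
      apply hδ
      have h2 : δ ∈ Submodule.span k ((fun s => ρ s δ) '' (H : Set Γ)) :=
        Submodule.subset_span ⟨1, H.one_mem, hρ1⟩
      rw [h] at h2
      exact (Submodule.mem_bot k).1 h2
  have hL : ∀ v, SS ω δ v ∈ 𝔤 := by
    intro v
    have hv : v ∈ Submodule.span k ((fun s => ρ s δ) '' (H : Set Γ)) := by
      rw [hspanH]
      exact Submodule.mem_top
    induction hv using Submodule.span_induction with
    | mem u hu =>
      obtain ⟨t, ht, rfl⟩ := hu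
      exact ht
    | zero => rw [SS_zero_right]; exact Submodule.zero_mem _
    | add x y _ _ hx hy => rw [SS_add_right]; exact Submodule.add_mem _ hx hy
    | smul c x _ hx => rw [SS_smul_right]; exact Submodule.smul_mem _ _ hx
  intro u v
  rw [SS_comm]
  have hu : u ∈ Submodule.span k (Set.range fun s => ρ s δ) := by
    rw [hspan]
    exact Submodule.mem_top
  induction hu using Submodule.span_induction with
  | mem u hu =>
    obtain ⟨s, rfl⟩ := hu
    rw [SS_comm]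
    have h6 := hconj s _ _ (hL (ρ s⁻¹ v))
    rwa [rho_inv'] at h6
  | zero => rw [SS_zero_right]; exact Submodule.zero_mem _
  | add x y _ _ hx hy => rw [SS_add_right]; exact Submodule.add_mem _ hx hy
  | smul c x _ hx => rw [SS_smul_right]; exact Submodule.smul_mem _ _ hx

include halt in
/-- A bilinear form killed by the symplectic Lie algebra is a multiple of `ω`. -/
theorem bilinear_of_killed {a₀ u₀ : V} (h0 : ω a₀ u₀ = 1) (B : V →ₗ[k] V →ₗ[k] k)
    (hB : ∀ a b u w, B (SS ω a b u) w + B u (SS ω a b w) = 0) :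
    ∀ u w, B u w = B a₀ u₀ * ω u w := by
  have hanti := alt_anti halt
  have key : ∀ a b u w, ω a u * B b w + ω b u * B a w + ω a w * B u b + ω b w * B u a = 0 := by
    intro a b u w
    have h1 := hB a b u w
    rw [SS_apply, SS_apply, map_add, map_add, map_smul, map_smul, map_smul, map_smul,
      LinearMap.add_apply, LinearMap.smul_apply, LinearMap.smul_apply] at h1
    simp only [smul_eq_mul] at h1
    linear_combination h1
  have hu0 : ω u₀ a₀ = -1 := by rw [hanti, h0]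
  have e1 : ∀ w, B a₀ w = -(ω a₀ w) * B u₀ a₀ := by
    intro w
    have h1 := key a₀ a₀ u₀ w
    rw [h0] at h1
    have h2 : (2 : k) * (B a₀ w + ω a₀ w * B u₀ a₀) = 0 := by linear_combination h1
    have h3 := (mul_eq_zero.1 h2).resolve_left two_ne_zero
    linear_combination h3
  have e2 : ∀ w, B u₀ w = ω u₀ w * B a₀ u₀ := by
    intro w
    have h1 := key u₀ u₀ a₀ w
    rw [hu0] at h1
    have h2 : (2 : k) * (B u₀ w - ω u₀ w * B a₀ u₀) = 0 := by linear_combination -h1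
    have h3 := (mul_eq_zero.1 h2).resolve_left two_ne_zero
    linear_combination h3
  have e3 : B u₀ a₀ = -B a₀ u₀ := by
    rw [e2, hu0]
    ring
  intro b w
  have h1 := key a₀ b u₀ w
  rw [h0, e1 w, e2 b, e3, hanti b u₀] at h1
  linear_combination h1

/-- The conclusions, if the Lie algebra is the symplectic Lie algebra. -/
theorem conclusions [FiniteDimensional k V] (halt : ∀ v, ω v v = 0)
    (hnd : ∀ u, (∀ v, ω v u = 0) → u = 0)
    (hωρ : ∀ s u v, ω (ρ s u) (ρ s v) = χ s * ω u v)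
    (hirr : ∀ Δ : Subgroup Γ, Δ.FiniteIndex → ∀ U : Submodule k V,
      (∀ s ∈ Δ, ∀ u ∈ U, ρ s u ∈ U) → U = ⊥ ∨ U = ⊤)
    (hV : ∃ v : V, v ≠ 0) (hSS : ∀ u v, SS ω u v ∈ lieP ρ χ) :
    (∀ (m : ℕ) (Δ : Subgroup Γ), Δ.FiniteIndex →
      ∀ U : Submodule k (MultilinearMap k (fun _ : Fin m => V) k),
        (∀ s ∈ Δ, ∀ φ ∈ U, TT (ρ s) φ ∈ U) →
        ∃ U' : Submodule k (MultilinearMap k (fun _ : Fin m => V) k),
          (∀ s ∈ Δ, ∀ φ ∈ U', TT (ρ s) φ ∈ U') ∧ IsCompl U U') ∧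
    (∀ (m : ℕ) (φ : MultilinearMap k (fun _ : Fin m × Fin 2 => V) k), IsTate ρ χ m φ →
      φ ∈ Submodule.span k {ψ : MultilinearMap k (fun _ : Fin m × Fin 2 => V) k |
        ∃ σ : Equiv.Perm (Fin m × Fin 2), ∀ v, ψ v = ∏ l, ω (v (σ (l, 0))) (v (σ (l, 1)))}) := by
  classical
  have hanti := alt_anti halt
  obtain ⟨R, _, _, e, inv, jj, hinv, hne, hjj, hj1, hω⟩ := exists_darboux (finrank k V) V ω halt
    hnd le_rfl
  have hj0 : ∀ x, jj x ≠ 0 := by
    intro x
    rcases hj1 x with h | h <;> rw [h]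
    · exact one_ne_zero
    · exact neg_ne_zero.2 one_ne_zero
  have hbr : ∀ X ∈ lieP ρ χ, ∀ Y ∈ lieP ρ χ, X * Y - Y * X ∈ lieP ρ χ :=
    fun X hX Y hY => lieP_bracket ρ χ hX hY
  have hsp : ∀ X ∈ lieP ρ χ, ∀ u w, ω (X u) w + ω u (X w) = 0 :=
    fun X hX u w => lieT_sp ρ χ ω hωρ hX.1 u w
  have hconj : ∀ (s : Γ) (X : Module.End k V), X ∈ lieP ρ χ → ρ s * X * ρ s⁻¹ ∈ lieP ρ χ :=
    fun s X hX => lieP_conj ρ χ s hX
  have hcomm : ∀ Δ : Subgroup Γ, Δ.FiniteIndex → ∀ P : Module.End k V,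
      (∀ s ∈ Δ, ∀ v, P (ρ s v) = ρ s (P v)) → ∀ X ∈ lieP ρ χ, ∀ v, X (P v) = P (X v) := by
    intro Δ hΔ P hP X hX
    exact lieT_comm e hinv hj0 ω hω ρ χ hωρ Δ hΔ P hP X hX.1
  have hss : HasProj ρ := by
    intro Δ hΔ U hU
    rcases hirr Δ hΔ U hU with rfl | rfl
    · refine ⟨0, fun v => Submodule.zero_mem _, fun u hu => ?_, fun s _ v => ?_⟩
      · rw [LinearMap.zero_apply, (Submodule.mem_bot k).1 hu]
      · rw [LinearMap.zero_apply, LinearMap.zero_apply, map_zero]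
    · exact ⟨LinearMap.id, fun v => Submodule.mem_top, fun u _ => rfl, fun s _ v => rfl⟩
  have hD : ∀ y, DD e inv y ∈ lieP ρ χ := by
    intro y
    have h1 : SS ω (e y) (e (inv y)) = (-jj y) • DD e inv y := by
      refine e.ext fun z => ?_
      rw [SS_apply, LinearMap.smul_apply, DD_basis, hω, hω]
      unfold JJ dd
      rw [hinv]
      by_cases h2 : z = y
      · subst h2
        rw [if_neg (Ne.symm (hne z)), if_pos rfl, if_pos rfl, if_neg (Ne.symm (hne z)), zero_smul,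
          zero_add, hjj, sub_zero, one_smul]
      · by_cases h3 : z = inv y
        · subst h3
          rw [if_pos rfl, if_neg h2, if_neg h2, if_pos rfl, zero_smul, add_zero, zero_sub,
            neg_smul, neg_smul, smul_neg, one_smul, neg_neg]
        · rw [if_neg h3, if_neg h2, if_neg h2, if_neg h3, zero_smul, zero_smul, add_zero,
            sub_zero, zero_smul, smul_zero]
    have h2 := hSS (e y) (e (inv y))
    rw [h1] at h2
    exact (Submodule.smul_mem_iff _ (neg_ne_zero.2 (hj0 y))).1 h2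
  constructor
  · intro m Δ hΔ U hU
    obtain ⟨P, hP1, hP2, hP3⟩ := proj_group e (lieP ρ χ) hbr hD hinv hne hjj hj0 ω hω hsp ρ χ hconj
      hss hcomm hωρ hj1 Δ U hU (fun a c h φ hφ => h.2 m Δ hΔ U hU φ hφ)
    obtain ⟨U', h1, h2⟩ := compl_of_proj ((fun s => TT (κ := Fin m) (ρ s)) '' (Δ : Set Γ)) U P hP1
      hP2 (by
        rintro _ ⟨s, hs, rfl⟩ φ
        exact hP3 s hs φ)
    exact ⟨U', fun s hs φ hφ => h1 _ ⟨s, hs, rfl⟩ φ hφ, h2⟩
  · intro m φ hφ
    have h1 := killed_mem e (lieP ρ χ) hbr hD hinv hne hjj hj0 ω hω hsp ρ χ hconj hss hcomm hωρ φ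
      (fun a b h => h.1 m φ hφ)
    obtain ⟨a₀, u₀, h0⟩ : ∃ a₀ u₀, ω a₀ u₀ = 1 := by
      obtain ⟨a, ha⟩ := hV
      obtain ⟨b', hb'⟩ : ∃ v, ω v a ≠ 0 := by
        by_contra hcon
        push Not at hcon
        exact ha (hnd a hcon)
      refine ⟨a, -(ω b' a)⁻¹ • b', ?_⟩
      rw [map_smul, hanti a b', smul_eq_mul]
      field_simp
    clear hφ
    induction h1 using Submodule.span_induction with
    | mem ψ hψ =>
      obtain ⟨σ, B, hB, rfl⟩ := hψ
      have h2 : ∀ l u w, B l u w = B l a₀ u₀ * ω u w := fun l =>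
        bilinear_of_killed ω halt h0 (B l) (fun a b u w =>
          lieT_bil ρ χ (hB l) (hSS a b).1 u w)
      have h3 : mmG σ B = (∏ l, B l a₀ u₀) • mmG σ (fun _ => ω) := by
        ext v
        rw [MultilinearMap.smul_apply, mmG_apply, mmG_apply, smul_eq_mul, ← Finset.prod_mul_distrib]
        exact Finset.prod_congr rfl fun l _ => h2 l _ _
      rw [h3]
      exact Submodule.smul_mem _ _ (Submodule.subset_span ⟨σ, fun v => rfl⟩)
    | zero => exact Submodule.zero_mem _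
    | add x y _ _ hx hy =>
      exact Submodule.add_mem _ hx hy
    | smul c x _ hx => exact Submodule.smul_mem _ _ hx

/-- The Lie algebra contains the logarithm of a transvection. -/
theorem SS_mem_of_transvection (halt : ∀ v, ω v v = 0)
    (hnd : ∀ u, (∀ v, ω v u = 0) → u = 0)
    (hωρ : ∀ s u v, ω (ρ s u) (ρ s v) = χ s * ω u v) (t : Γ) (δ : V) (c : k) (hδ : δ ≠ 0)
    (hc : c ≠ 0) (ht : ∀ v, ρ t v = v + (c * ω δ v) • δ) : SS ω δ δ ∈ lieP ρ χ := by
  have hanti := alt_anti halt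
  obtain ⟨X, hXd⟩ : ∃ X, X = (c / 2) • SS ω δ δ := ⟨_, rfl⟩
  have hX : ∀ v, X v = (c * ω δ v) • δ := by
    intro v
    rw [hXd, LinearMap.smul_apply, SS_apply, ← add_smul, smul_smul]
    congr 1
    field_simp
    ring
  have h1 : X ∈ lieP ρ χ := by
    refine mem_lieP_of_unip ρ χ (t := t) ?_ ?_
    · intro n
      induction n with
      | zero => rw [pow_zero, map_one, Nat.cast_zero, zero_smul, add_zero]
      | succ n ih =>
        refine LinearMap.ext fun v => ?_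
        rw [pow_succ, map_mul, Module.End.mul_apply, ih, ht]
        simp only [LinearMap.add_apply, LinearMap.smul_apply, hX, Module.End.one_apply, map_add,
          map_smul, halt, mul_zero, zero_smul, smul_zero, add_zero, smul_smul, smul_eq_mul]
        push_cast
        module
    · obtain ⟨b, hb⟩ : ∃ v, ω v δ ≠ 0 := by
        by_contra hcon
        push Not at hcon
        exact hδ (hnd δ hcon)
      have h2 := hωρ t b δ
      rw [ht, ht, halt, mul_zero, zero_smul, add_zero, map_add, LinearMap.add_apply, map_smul,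
        LinearMap.smul_apply, halt, smul_zero, add_zero] at h2
      have h3 : (χ t - 1) * ω b δ = 0 := by linear_combination -h2
      exact sub_eq_zero.1 ((mul_eq_zero.1 h3).resolve_right hb)
  rw [hXd] at h1
  exact (Submodule.smul_mem_iff _ (div_ne_zero hc two_ne_zero)).1 h1

/-- A transvection and elements whose characteristic polynomials have no common degree. -/
theorem picard_lefschetz [FiniteDimensional k V] (halt : ∀ v, ω v v = 0)
    (hnd : ∀ u, (∀ v, ω v u = 0) → u = 0)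
    (hωρ : ∀ s u v, ω (ρ s u) (ρ s v) = χ s * ω u v) {J : Type*} (γ : J → Γ)
    (hγ : NoCommonDegree ρ γ) (t : Γ) (δ : V) (c : k) (hδ : δ ≠ 0)
    (hc : c ≠ 0) (ht : ∀ v, ρ t v = v + (c * ω δ v) • δ) :
    (∀ (m : ℕ) (Δ : Subgroup Γ), Δ.FiniteIndex →
      ∀ U : Submodule k (MultilinearMap k (fun _ : Fin m => V) k),
        (∀ s ∈ Δ, ∀ φ ∈ U, TT (ρ s) φ ∈ U) →
        ∃ U' : Submodule k (MultilinearMap k (fun _ : Fin m => V) k),
          (∀ s ∈ Δ, ∀ φ ∈ U', TT (ρ s) φ ∈ U') ∧ IsCompl U U') ∧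
    (∀ (m : ℕ) (φ : MultilinearMap k (fun _ : Fin m × Fin 2 => V) k), IsTate ρ χ m φ →
      φ ∈ Submodule.span k {ψ : MultilinearMap k (fun _ : Fin m × Fin 2 => V) k |
        ∃ σ : Equiv.Perm (Fin m × Fin 2), ∀ v, ψ v = ∏ l, ω (v (σ (l, 0))) (v (σ (l, 1)))}) := by
  have hirr : ∀ Δ : Subgroup Γ, Δ.FiniteIndex → ∀ U : Submodule k V,
      (∀ s ∈ Δ, ∀ u ∈ U, ρ s u ∈ U) → U = ⊥ ∨ U = ⊤ := fun Δ hΔ U hU =>
    irr_of_degrees hγ Δ hΔ U hU
  refine conclusions ρ χ ω halt hnd hωρ hirr ⟨δ, hδ⟩ ?_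
  refine SS_all ρ ω (lieP ρ χ) halt hnd (fun X hX Y hY => lieP_bracket ρ χ hX hY) ?_ hirr hδ
    (SS_mem_of_transvection ρ χ ω halt hnd hωρ t δ c hδ hc ht)
  intro s a b h
  rw [SS_rho ρ χ ω hωρ]
  exact Submodule.smul_mem _ _ (lieP_conj ρ χ s h)

end

end Pool.Agent.W529.Ta
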